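import Pool.Agent.Lib.MP_26a019_lc.Was.WAlg

set_option autoImplicit false

open Finset Classical

namespace Pool.Agent.KempeWas

open Pool.Agent.Kempe Pool.Agent.KempeMix

theorem exp_aux (v δ : ℝ) (hv : 0 ≤ v) (hvδ : v ≤ δ) (hδ : δ < 1) :
    Real.exp v * (δ - v) ≤ δ := by
  have h1 : Real.exp (-v) ≥ 1 - v := by
    have := Real.add_one_le_exp (-v)
    linarith
  have h2 : Real.exp v * Real.exp (-v) = 1 := by
    rw [← Real.exp_add]; simp
  have h3 : Real.exp v * (1 - v) ≤ 1 := by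
    have := mul_le_mul_of_nonneg_left h1 (Real.exp_pos v).le
    linarith
  have h4 : 0 < 1 - v := by linarith
  have h5 : (δ - v) ≤ δ * (1 - v) := by nlinarith
  calc Real.exp v * (δ - v) ≤ Real.exp v * (δ * (1 - v)) :=
        mul_le_mul_of_nonneg_left h5 (Real.exp_pos v).le
    _ = δ * (Real.exp v * (1 - v)) := by ring
    _ ≤ δ * 1 := mul_le_mul_of_nonneg_left h3 (by linarith)
    _ = δ := mul_one _

theorem phi_poly (A : ℝ) (h0 : 0 ≤ A) (h1 : A ≤ 3 / 7) :
    (4 / 7 + A) + 36788 / 100000 * ((3 / 7 - A) * (1 + A + A ^ 2 / 2 + 2 / 9 * A ^ 3)) *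
      (1 + A + A ^ 2 / 2) ≤ 745 / 1000 * (1 + A + A ^ 2 / 2) := by
  have hA := sub_nonneg.2 h1
  nlinarith [mul_nonneg h0 hA, sq_nonneg (A - 12 / 100), mul_nonneg h0 (sq_nonneg (A - 12 / 100)),
    mul_nonneg hA (sq_nonneg (A - 12 / 100)), mul_nonneg (mul_nonneg h0 hA) (sq_nonneg (A - 12/100)),
    mul_nonneg (mul_nonneg h0 hA) h0, mul_nonneg (mul_nonneg h0 h0) (sq_nonneg (A - 12 / 100)),
    mul_nonneg (mul_nonneg h0 hA) (mul_nonneg h0 h0), pow_nonneg h0 3, pow_nonneg h0 4,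
    pow_nonneg h0 5, pow_nonneg h0 6]

theorem phi_A (A : ℝ) (h0 : 0 ≤ A) (h1 : A ≤ 3 / 7) :
    Real.exp (-A) * (4 / 7 + A) + Real.exp (A - 1) * (3 / 7 - A) ≤ 745 / 1000 := by
  have hq := Real.quadratic_le_exp_of_nonneg h0
  have hpos : 0 < 1 + A + A ^ 2 / 2 := by positivity
  have he1 : Real.exp (-A) ≤ 1 / (1 + A + A ^ 2 / 2) := by
    rw [Real.exp_neg, ← one_div]
    exact one_div_le_one_div_of_le hpos hq
  have he2 : Real.exp A ≤ 1 + A + A ^ 2 / 2 + 2 / 9 * A ^ 3 := by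
    have := Real.exp_bound' h0 (by linarith : A ≤ 1) (n := 3) (by norm_num)
    simp [Finset.sum_range_succ, Nat.factorial] at this
    linarith
  have he3 : Real.exp (-1) ≤ 36788 / 100000 := by
    have := Real.exp_one_gt_d9
    rw [Real.exp_neg]
    rw [inv_le_comm₀ (Real.exp_pos 1) (by norm_num)]
    refine le_trans ?_ this.le
    norm_num
  have he4 : Real.exp (A - 1) ≤ 36788 / 100000 * (1 + A + A ^ 2 / 2 + 2 / 9 * A ^ 3) := by
    rw [show A - 1 = -1 + A by ring, Real.exp_add]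
    exact mul_le_mul he3 he2 (Real.exp_pos A).le (by norm_num)
  have hp := phi_poly A h0 h1
  have h4 : 0 ≤ 4 / 7 + A := by linarith
  have h5 : 0 ≤ 3 / 7 - A := by linarith
  calc Real.exp (-A) * (4 / 7 + A) + Real.exp (A - 1) * (3 / 7 - A)
      ≤ 1 / (1 + A + A ^ 2 / 2) * (4 / 7 + A) +
        36788 / 100000 * (1 + A + A ^ 2 / 2 + 2 / 9 * A ^ 3) * (3 / 7 - A) :=
        add_le_add (mul_le_mul_of_nonneg_right he1 h4) (mul_le_mul_of_nonneg_right he4 h5)
    _ = ((4 / 7 + A) + 36788 / 100000 * ((3 / 7 - A) * (1 + A + A ^ 2 / 2 + 2 / 9 * A ^ 3)) *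
      (1 + A + A ^ 2 / 2)) / (1 + A + A ^ 2 / 2) := by
        field_simp
    _ ≤ 745 / 1000 := by
        rw [div_le_iff₀ hpos]
        exact hp

/-- The two-variable inequality. -/
theorem phi_bound (t a b A B : ℝ) (ht0 : 0 ≤ t) (ht : t ≤ 4 / 7) (hb : 0 ≤ b) (hba : b ≤ a)
    (ha : a ≤ 1) (hA : 0 ≤ A) (hB : 0 ≤ B) (haA : a ≤ Real.exp (-A)) (hbB : b ≤ Real.exp (-B)) :
    b * min 1 (A + B) + (a - b) * min 1 (t + A) ≤ 745 / 1000 := by
  have hab : 0 ≤ a - b := by linarith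
  have ha0 : 0 ≤ a := by linarith
  rcases le_total (3 / 7) A with hA3 | hA3
  · have h1 : b * min 1 (A + B) + (a - b) * min 1 (t + A) ≤ b * 1 + (a - b) * 1 :=
      add_le_add (mul_le_mul_of_nonneg_left (min_le_left _ _) hb)
        (mul_le_mul_of_nonneg_left (min_le_left _ _) hab)
    have h2 : Real.exp (-A) ≤ Real.exp (-(3 / 7)) := Real.exp_le_exp.2 (by linarith)
    have h3 := phi_A (3 / 7) (by norm_num) le_rfl
    norm_num at h3
    have h4 : Real.exp (-(3 / 7)) = Real.exp (-3 / 7) := by norm_num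
    linarith
  · have hp := phi_A A hA hA3
    have hτ : min 1 (t + A) ≤ 4 / 7 + A := (min_le_right _ _).trans (by linarith)
    have e1 : (a - b) * min 1 (t + A) ≤ (a - b) * (4 / 7 + A) := mul_le_mul_of_nonneg_left hτ hab
    have e2 : a * (4 / 7 + A) ≤ Real.exp (-A) * (4 / 7 + A) :=
      mul_le_mul_of_nonneg_right haA (by linarith)
    have hδ : 0 ≤ 3 / 7 - A := by linarith
    have e3 : b * (min 1 (A + B) - (4 / 7 + A)) ≤ Real.exp (A - 1) * (3 / 7 - A) := by
      rcases le_total 1 (A + B) with h | h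
      · rw [min_eq_left h]
        have : b ≤ Real.exp (A - 1) := hbB.trans (Real.exp_le_exp.2 (by linarith))
        calc b * (1 - (4 / 7 + A)) = b * (3 / 7 - A) := by ring
          _ ≤ Real.exp (A - 1) * (3 / 7 - A) := mul_le_mul_of_nonneg_right this hδ
      · rw [min_eq_right h]
        rcases le_total (A + B) (4 / 7 + A) with h2 | h2
        · have : b * (A + B - (4 / 7 + A)) ≤ 0 := mul_nonpos_of_nonneg_of_nonpos hb (by linarith)
          have h3 : 0 ≤ Real.exp (A - 1) * (3 / 7 - A) := by positivity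
          linarith
        · have h3 : b * (A + B - (4 / 7 + A)) ≤ Real.exp (-B) * (A + B - (4 / 7 + A)) :=
            mul_le_mul_of_nonneg_right hbB (by linarith)
          have h4 := exp_aux (1 - A - B) (3 / 7 - A) (by linarith) (by linarith) (by linarith)
          have h5 : Real.exp (-B) = Real.exp (A - 1) * Real.exp (1 - A - B) := by
            rw [← Real.exp_add]; congr 1; ring
          calc b * (A + B - (4 / 7 + A)) ≤ Real.exp (-B) * (A + B - (4 / 7 + A)) := h3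
            _ = Real.exp (A - 1) * (Real.exp (1 - A - B) * (3 / 7 - A - (1 - A - B))) := by
                rw [h5]; ring
            _ ≤ Real.exp (A - 1) * (3 / 7 - A) :=
                mul_le_mul_of_nonneg_left h4 (Real.exp_pos _).le
    nlinarith

/-- `Kap` for `4 r ≥ 3 Δ - 3`. -/
theorem kap_big (Δ r : ℕ) (hr : 1 ≤ r) (hΔ : 1 ≤ Δ) (h : 3 * Δ ≤ 4 * r + 3) :
    Kap Δ r (149 / 150) := by
  apply kap_of_phi Δ r hr hΔ
  intro k a b A B hk hb hba ha hA hB haA hbB
  have hrr : (1 : ℝ) ≤ r := by exact_mod_cast hr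
  have hDD : (1 : ℝ) ≤ Δ := by exact_mod_cast hΔ
  have h' : 3 * (Δ : ℝ) ≤ 4 * r + 3 := by exact_mod_cast h
  have ht : ((Δ : ℝ) - 1) / (r + Δ - 1) ≤ 4 / 7 := by
    rw [div_le_div_iff₀ (by linarith) (by norm_num)]
    linarith
  have ht0 : 0 ≤ ((Δ : ℝ) - 1) / (r + Δ - 1) := div_nonneg (by linarith) (by linarith)
  have hφ := phi_bound _ a b A B ht0 ht hb hba ha hA hB haA hbB
  have hc : ((Δ : ℝ) - 1) / r ≤ 4 / 3 := by
    rw [div_le_div_iff₀ (by linarith) (by norm_num)]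
    linarith
  have hc0 : 0 ≤ ((Δ : ℝ) - 1) / r := div_nonneg (by linarith) (by linarith)
  calc _ ≤ ((Δ : ℝ) - 1) / r * (745 / 1000) := mul_le_mul_of_nonneg_left hφ hc0
    _ ≤ 4 / 3 * (745 / 1000) := mul_le_mul_of_nonneg_right hc (by norm_num)
    _ = 149 / 150 := by norm_num

end Pool.Agent.KempeWas
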