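import Pool.Agent.Lib.MP_26a019_lc.Was.WStep
import Pool.Agent.Lib.MP_26a019_lc.Mix.MMain
import Pool.Agent.Lib.MP_26a019_lc.Mix.MInfl

set_option autoImplicit false

open Finset Classical

namespace Pool.Agent.KempeWas

open Pool.Agent.Kempe Pool.Agent.KempeMix

variable {V C : Type} [Fintype V] [Fintype C]

/-- the colours not used by the pinned neighbours -/
private noncomputable def pinL (G : SimpleGraph V) (W : Finset V) (p : V → C) : V → Finset C :=
  fun v => univ.filter (fun c => ∀ w ∈ W, G.Adj v w → p w ≠ c)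

private theorem om_eq_lc (G : SimpleGraph V) (W : Finset V) (p : V → C) (hp : p ∈ PC G C) :
    Om G W p = LC G Wᶜ (pinL G W p) p := by
  have hp' : Proper G p := (mem_filter.1 hp).2
  ext f
  simp only [Om, LC, pinL, mem_filter, mem_univ, true_and, mem_compl, not_not]
  constructor
  · rintro ⟨h1, h2⟩
    refine ⟨fun u _ w hw hadj => ?_, fun u _ w _ hadj => h1 u w hadj, h2⟩
    rw [← h2 w hw]
    exact (h1 u w hadj).symm
  · rintro ⟨h1, h2, h3⟩
    refine ⟨fun u w hadj => ?_, h3⟩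
    by_cases hu : u ∈ W
    · by_cases hw : w ∈ W
      · rw [h3 u hu, h3 w hw]
        exact hp' u w hadj
      · rw [h3 u hu]
        exact h1 w hw u hu hadj.symm
    · by_cases hw : w ∈ W
      · rw [h3 w hw]
        exact (h1 u hu w hw hadj).symm
      · exact h2 u hu w hw hadj

private theorem pin_ins (G : SimpleGraph V) (Δ r : ℕ) (hq : Fintype.card C = Δ + r)
    (hΔ : ∀ v, (univ.filter (fun u => G.Adj v u)).card ≤ Δ) (W : Finset V) (p : V → C) :
    Ins G Wᶜ (pinL G W p) Δ r ∅ := by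
  refine ⟨empty_subset _, fun v _ => ?_, fun v hv => absurd hv (notMem_empty v)⟩
  have hsplit : (nb G Wᶜ v).card + (W.filter (fun u => G.Adj v u)).card
      = (univ.filter (fun u => G.Adj v u)).card := by
    rw [← card_union_of_disjoint]
    · congr 1
      ext u
      simp only [nb, mem_union, mem_filter, mem_compl, mem_univ, true_and]
      tauto
    · rw [disjoint_left]
      intro u hu hu'
      simp only [nb, mem_filter, mem_compl] at hu hu'
      exact hu.1 hu'.1
  have hL : Fintype.card C ≤ (pinL G W p v).card + (W.filter (fun u => G.Adj v u)).card := by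
    have h1 : (univ : Finset C) ⊆ pinL G W p v ∪ (W.filter (fun u => G.Adj v u)).image p := by
      intro c _
      by_cases hc : c ∈ pinL G W p v
      · exact mem_union_left _ hc
      · apply mem_union_right
        simp only [pinL, mem_filter, mem_univ, true_and] at hc
        push Not at hc
        obtain ⟨w, hw, hadj, hpw⟩ := hc
        exact mem_image.2 ⟨w, mem_filter.2 ⟨hw, hadj⟩, hpw⟩
    calc Fintype.card C = (univ : Finset C).card := card_univ.symm
      _ ≤ (pinL G W p v ∪ (W.filter (fun u => G.Adj v u)).image p).card := card_le_card h1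
      _ ≤ (pinL G W p v).card + ((W.filter (fun u => G.Adj v u)).image p).card :=
          card_union_le _ _
      _ ≤ _ := Nat.add_le_add_left card_image_le _
  have := hΔ v
  unfold Sl
  constructor <;> omega

private theorem cp_eq (A : Finset (V → C)) (v : V) (a : C) (u : V) (c : C) :
    cp A v a u c = ev (A.filter (fun f => f v = a)) (fun f => if f u = c then (1 : ℝ) else 0) := by
  unfold cp ev
  rw [sum_boole, filter_filter]

/-- `Om G W p = LC G Wᶜ L p` with the lists of colours not used by pinned neighbours; then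
`si_of_influence` with `Γ = 1 + Δ M`, `pin`, `infl_of_wb`. -/
theorem si_of_wp (G : SimpleGraph V) (Δ r : ℕ) (hr : 1 ≤ r) (hq : Fintype.card C = Δ + r)
    (hΔ : ∀ v, (univ.filter (fun u => G.Adj v u)).card ≤ Δ) (M : ℝ) (hM : 0 ≤ M)
    (hWP : ∀ n, WP G C Δ r n M) (W : Finset V) (p : V → C) (hp : p ∈ PC G C) (h : V → C → ℝ) :
    vr (Om G W p) (fun f => ∑ v ∈ Wᶜ, h v (f v)) ≤
      (2 * (1 + (Δ : ℝ) * M) + 2) * ∑ v ∈ Wᶜ, vr (Om G W p) (fun f => h v (f v)) := by
  have _ := hr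
  have hins := pin_ins G Δ r hq hΔ W p
  rw [om_eq_lc G W p hp]
  apply si_of_influence
  intro v hv a b ⟨fa, hfa, hfa'⟩ ⟨fb, hfb, hfb'⟩
  have haL : a ∈ pinL G W p v := by
    rw [← hfa']
    exact ((mem_filter.1 hfa).2.1 v hv)
  have hbL : b ∈ pinL G W p v := by
    rw [← hfb']
    exact ((mem_filter.1 hfb).2.1 v hv)
  have hwb : WB ((LC G Wᶜ (pinL G W p) p).filter (fun f => f v = a))
      ((LC G Wᶜ (pinL G W p) p).filter (fun f => f v = b)) (1 + (Δ : ℝ) * M) := by
    rw [lc_filter_eq G Wᶜ (pinL G W p) p v hv a haL, lc_filter_eq G Wᶜ (pinL G W p) p v hv b hbL]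
    apply wb_mono _ _ _ _ (pin G Δ r (Wᶜ).card M hM (hWP _) Wᶜ ∅ (pinL G W p) p v hv
      (Nat.le_succ _) hins a b)
    have h1 : ((nb G Wᶜ v).card : ℝ) ≤ Δ := by
      have := (hins.2.1 v hv).1
      exact_mod_cast this
    have := mul_le_mul_of_nonneg_right h1 hM
    linarith
  have hinf := infl_of_wb _ _ ((Wᶜ).erase v) _ ⟨fa, mem_filter.2 ⟨hfa, hfa'⟩⟩
    ⟨fb, mem_filter.2 ⟨hfb, hfb'⟩⟩ hwb
  calc ∑ u ∈ (Wᶜ).erase v, ∑ c, |cp (LC G Wᶜ (pinL G W p) p) v a u c -
        cp (LC G Wᶜ (pinL G W p) p) v b u c|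
      = _ := sum_congr rfl (fun u _ => sum_congr rfl (fun c _ => by rw [cp_eq, cp_eq]))
    _ ≤ _ := hinf

/-- Mixing from a contraction constant below one. -/
theorem mixing_of_kap (Δ r : ℕ) (hr : 2 ≤ r) (κ : ℝ) (hκ1 : κ < 1) (hκ : Kap Δ r κ) :
    ∃ K : ℕ, ∀ (V C : Type) [Fintype V] [Fintype C] [Nonempty V], Fintype.card C = Δ + r →
      ∀ G : SimpleGraph V, (∀ v, (univ.filter (fun u => G.Adj v u)).card ≤ Δ) →
      ∀ t : ℕ, 2 * ((Δ + r : ℕ) : ℝ) ^ (3 * K + 1) * ((Fintype.card V : ℝ) + 1) ^ (K + 1) ≤ t →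
      ∀ f0 : {f : V → C // f ∈ PC G C}, tvd G C t f0 ≤ 1 / 4 := by
  have hr0 : (0 : ℝ) < r := by
    have : 0 < r := by omega
    exact_mod_cast this
  have hk : 0 < 1 - κ := by linarith
  obtain ⟨M, hMdef⟩ : ∃ M : ℝ, M = (2 * (Δ : ℝ) + 1) / r / (1 - κ) := ⟨_, rfl⟩
  have hM : 0 ≤ M := by
    rw [hMdef]
    positivity
  have hM' : (2 * (Δ : ℝ) + 1) / r + κ * M ≤ M := by
    have h1 : (2 * (Δ : ℝ) + 1) / r = M * (1 - κ) := by
      rw [hMdef]
      field_simp
    rw [h1]
    linarith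
  refine ⟨max 1 ⌈2 * (1 + (Δ : ℝ) * M) + 2⌉₊, ?_⟩
  intro V C _ _ _ hC G hΔ t ht f0
  obtain ⟨K, hK⟩ : ∃ K : ℕ, K = max 1 ⌈2 * (1 + (Δ : ℝ) * M) + 2⌉₊ := ⟨_, rfl⟩
  rw [← hK] at ht
  apply mixing_of_si Δ (by omega) K (by rw [hK]; exact le_max_left _ _) G hΔ _ t
    (by rw [hC]; exact ht)
  intro W p hp _ h
  have h1 := si_of_wp G Δ r (by omega) hC hΔ M hM (fun n => wp_all G Δ r (by omega) κ M hκ hM hM' n)
    W p hp h
  refine h1.trans ?_
  apply mul_le_mul_of_nonneg_right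
  · have h2 : (⌈2 * (1 + (Δ : ℝ) * M) + 2⌉₊ : ℝ) ≤ K := by
      rw [hK]
      exact_mod_cast le_max_right _ _
    exact (Nat.le_ceil _).trans h2
  · apply sum_nonneg
    intro v _
    unfold vr ev
    apply div_nonneg (sum_nonneg (fun f _ => sq_nonneg _)) (Nat.cast_nonneg _)

end Pool.Agent.KempeWas
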