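import Pool.Agent.Lib.MP_26a019_lc.Was.WAlg

set_option autoImplicit false

open Finset Classical

namespace Pool.Agent.KempeWas

open Pool.Agent.Kempe Pool.Agent.KempeMix

/-! polynomial inequalities -/

theorem four_P3 (a b : ℝ) (hb : 8/27 ≤ b) (hba : b ≤ a) (ha : a ≤ 1) :
    3 * (b * (27/19 * (2 - a - b)) * (3 - b) + (a - b) * ((3 - a - b) - (3 - a - b)^2/4
      + (3 - a - b) * (27/19 * (1 - a)))) ≤ 99/100 * ((3 - a) * (3 - b)) := by
  nlinarith [mul_nonneg (sub_nonneg.2 hb) (sub_nonneg.2 hba),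
    mul_nonneg (sub_nonneg.2 hba) (sub_nonneg.2 ha), mul_nonneg (sub_nonneg.2 hb) (sub_nonneg.2 ha),
    sq_nonneg (a - 73/100), sq_nonneg (b - 41/100), sq_nonneg (a - b - 32/100),
    sq_nonneg (a + b - 114/100), mul_nonneg (sub_nonneg.2 hb) (sq_nonneg (b - 41/100)),
    mul_nonneg (sub_nonneg.2 hb) (sq_nonneg (a - 73/100)),
    mul_nonneg (sub_nonneg.2 hba) (sq_nonneg (a - 73/100)),
    mul_nonneg (sub_nonneg.2 hba) (sq_nonneg (b - 41/100)),
    mul_nonneg (sub_nonneg.2 ha) (sq_nonneg (b - 41/100)),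
    mul_nonneg (sub_nonneg.2 ha) (sq_nonneg (a - 73/100))]

theorem four_P3S (a b S : ℝ) (hb : 8/27 ≤ b) (hba : b ≤ a) (ha : a ≤ 1) (hS : 3 ≤ S) :
    3 * (b * (27/19 * (2 - a - b)) * (S - b) + (a - b) * ((S - a - b) - (S - a - b)^2/4 + (S - 3)
      + (S - a - b) * (27/19 * (1 - a)))) ≤ 99/100 * ((S - a) * (S - b)) := by
  have h0 := four_P3 a b hb hba ha
  have h1 : 0 ≤ 99/100 * (6 - a - b) - 3 * (b * (27/19 * (2 - a - b)) +
      (a - b) * (2 - (3 - a - b)/2 + 27/19 * (1 - a))) := by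
    nlinarith [mul_nonneg (sub_nonneg.2 hb) (sub_nonneg.2 hba),
    mul_nonneg (sub_nonneg.2 hba) (sub_nonneg.2 ha), mul_nonneg (sub_nonneg.2 hb) (sub_nonneg.2 ha)]
  have he : 0 ≤ S - 3 := by linarith
  nlinarith [mul_nonneg h1 he, mul_nonneg (mul_nonneg he he) (sub_nonneg.2 hba), sq_nonneg (S - 3)]

theorem four_C (ρ c S0 a b S : ℝ)
    (hS : S0 ≤ S)
    (h0 : 3 * (b * (ρ * (2 - a - b)) * (S0 - b) + (a - b) * (c + a + b
      + (S0 - a - b) * (ρ * (1 - a)))) ≤ 99/100 * ((S0 - a) * (S0 - b)))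
    (h1 : 3 * (b * (ρ * (2 - a - b)) + (a - b) * (ρ * (1 - a))) ≤ 99/100 * (2 * S0 - a - b)) :
    3 * (b * (ρ * (2 - a - b)) * (S - b) + (a - b) * (c + a + b
      + (S - a - b) * (ρ * (1 - a)))) ≤ 99/100 * ((S - a) * (S - b)) := by
  have he : 0 ≤ S - S0 := by linarith
  nlinarith [mul_nonneg (sub_nonneg.2 h1) he, sq_nonneg (S - S0)]

theorem four_P1 (a b S : ℝ) (hb : 2/3 ≤ b) (hba : b ≤ a) (ha : a ≤ 1) (hS : 3 ≤ S) :
    3 * (b * (1 * (2 - a - b)) * (S - b) + (a - b) * (-1 + a + b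
      + (S - a - b) * (1 * (1 - a)))) ≤ 99/100 * ((S - a) * (S - b)) := by
  apply four_C 1 (-1) 3 a b S hS
  · nlinarith [mul_nonneg (sub_nonneg.2 hb) (sub_nonneg.2 hba),
      mul_nonneg (sub_nonneg.2 hba) (sub_nonneg.2 ha), mul_nonneg (sub_nonneg.2 hb) (sub_nonneg.2 ha)]
  · nlinarith [mul_nonneg (sub_nonneg.2 hb) (sub_nonneg.2 hba),
      mul_nonneg (sub_nonneg.2 hba) (sub_nonneg.2 ha), mul_nonneg (sub_nonneg.2 hb) (sub_nonneg.2 ha)]

theorem four_P2 (a b S : ℝ) (hb : 4/9 ≤ b) (hba : b ≤ a) (ha : a ≤ 1) (hS : 3 ≤ S) :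
    3 * (b * (6/5 * (2 - a - b)) * (S - b) + (a - b) * (0 + a + b
      + (S - a - b) * (6/5 * (1 - a)))) ≤ 99/100 * ((S - a) * (S - b)) := by
  apply four_C (6/5) 0 3 a b S hS
  · nlinarith [mul_nonneg (sub_nonneg.2 hb) (sub_nonneg.2 hba),
      mul_nonneg (sub_nonneg.2 hba) (sub_nonneg.2 ha), mul_nonneg (sub_nonneg.2 hb) (sub_nonneg.2 ha),
      sq_nonneg (a - 71/100), sq_nonneg (b - 44/100)]
  · nlinarith [mul_nonneg (sub_nonneg.2 hb) (sub_nonneg.2 hba),
      mul_nonneg (sub_nonneg.2 hba) (sub_nonneg.2 ha), mul_nonneg (sub_nonneg.2 hb) (sub_nonneg.2 ha)]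

theorem four_P3' (a b S : ℝ) (hb : 8/27 ≤ b) (hba : b ≤ a) (ha : a ≤ 1) (hS : 4 ≤ S) :
    3 * (b * (27/19 * (2 - a - b)) * (S - b) + (a - b) * (1 + a + b
      + (S - a - b) * (27/19 * (1 - a)))) ≤ 99/100 * ((S - a) * (S - b)) := by
  apply four_C (27/19) 1 4 a b S hS
  · nlinarith [mul_nonneg (sub_nonneg.2 hb) (sub_nonneg.2 hba),
      mul_nonneg (sub_nonneg.2 hba) (sub_nonneg.2 ha), mul_nonneg (sub_nonneg.2 hb) (sub_nonneg.2 ha),
      sq_nonneg (a - 71/100), sq_nonneg (b - 44/100)]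
  · nlinarith [mul_nonneg (sub_nonneg.2 hb) (sub_nonneg.2 hba),
      mul_nonneg (sub_nonneg.2 hba) (sub_nonneg.2 ha), mul_nonneg (sub_nonneg.2 hb) (sub_nonneg.2 ha)]

/-! removal costs for few neighbours -/

theorem cost_one (Q n R : ℝ) (h : Cost 1 2 Q n R) : 2/3 ≤ Q ∧ R ≤ 1 * (1 - Q) := by
  obtain ⟨-, -, -, -, -, β, hβ, hQ, hR⟩ := h
  have h0 := hβ 0
  norm_num at h0
  simp only [Fin.prod_univ_one, Fin.sum_univ_one] at hQ hR
  constructor <;> linarith [h0.1, h0.2]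

theorem cost_two (Q n R : ℝ) (h : Cost 2 2 Q n R) : 4/9 ≤ Q ∧ R ≤ 6/5 * (1 - Q) := by
  obtain ⟨-, -, -, -, -, β, hβ, hQ, hR⟩ := h
  have h0 := hβ 0
  have h1 := hβ 1
  norm_num at h0 h1
  simp only [Fin.prod_univ_two, Fin.sum_univ_two] at hQ hR
  constructor
  · nlinarith [mul_nonneg (sub_nonneg.2 h0.2) (sub_nonneg.2 h1.2)]
  · nlinarith [mul_nonneg h0.1 (sub_nonneg.2 h1.2), mul_nonneg h1.1 (sub_nonneg.2 h0.2)]

theorem cost_three (Q n R : ℝ) (h : Cost 3 2 Q n R) : 8/27 ≤ Q ∧ R ≤ 27/19 * (1 - Q) := by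
  obtain ⟨-, -, -, -, -, β, hβ, hQ, hR⟩ := h
  have h0 := hβ 0
  have h1 := hβ 1
  have h2 := hβ 2
  norm_num at h0 h1 h2
  simp only [Fin.prod_univ_three, Fin.sum_univ_three] at hQ hR
  obtain ⟨a0, a1⟩ := h0
  obtain ⟨b0, b1⟩ := h1
  obtain ⟨c0, c1⟩ := h2
  have a1' := sub_nonneg.2 a1
  have b1' := sub_nonneg.2 b1
  have c1' := sub_nonneg.2 c1
  constructor
  · nlinarith [mul_nonneg (mul_nonneg a1' b1') c1', mul_nonneg a1' b1', mul_nonneg b1' c1',
      mul_nonneg a1' c1']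
  · nlinarith [mul_nonneg (mul_nonneg a0 b0) c1', mul_nonneg (mul_nonneg a0 b1') c0,
      mul_nonneg (mul_nonneg a1' b0) c0, mul_nonneg (mul_nonneg a0 b1') c1',
      mul_nonneg (mul_nonneg a1' b0) c1', mul_nonneg (mul_nonneg a1' b1') c0]

/-! reduction -/

theorem four_red_in {C : Type} (T : Finset C) (x y : C) (k : ℕ) (Q n R : C → ℝ) (hx : x ∈ T)
    (hy : y ∈ T) (hxy : x ≠ y) (h0 : ∀ z ∈ T, 0 < Q z) (hn : ∀ z ∈ T, R z ≤ n z)
    (hyx : Q y ≤ Q x) (hS : 0 < ∑ z ∈ T, Q z - Q x) :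
    ∑ z ∈ T.erase x, rho T Q x y z * min (k : ℝ) ((((4 : ℕ) : ℝ) - 1) * (R z + R x)) ≤
      3 * (Q y * (R x + R y) * (∑ z ∈ T, Q z - Q y) + (Q x - Q y) *
        (∑ c ∈ (T.erase x).erase y, Q c * n c + (∑ z ∈ T, Q z - Q x - Q y) * R x)) /
        ((∑ z ∈ T, Q z - Q x) * (∑ z ∈ T, Q z - Q y)) := by
  set S := ∑ z ∈ T, Q z with hSdef
  have hSy : 0 < S - Q y := by linarith
  have hy' : y ∈ T.erase x := mem_erase.2 ⟨fun h => hxy h.symm, hy⟩
  have hS2 : ∑ z ∈ (T.erase x).erase y, Q z = S - Q x - Q y := by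
    have e1 := Finset.add_sum_erase T Q hx
    have e2 := Finset.add_sum_erase (T.erase x) Q hy'
    linarith
  rw [← Finset.add_sum_erase (T.erase x) _ hy']
  have ht1 : rho T Q x y y * min (k : ℝ) ((((4 : ℕ) : ℝ) - 1) * (R y + R x)) ≤
      3 * (Q y * (R x + R y)) / (S - Q x) := by
    have hr : rho T Q x y y = Q y / (S - Q x) := by simp [rho, hSdef]
    rw [hr]
    have hq := (h0 y hy).le
    calc Q y / (S - Q x) * min (k : ℝ) ((((4 : ℕ) : ℝ) - 1) * (R y + R x))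
        ≤ Q y / (S - Q x) * ((((4 : ℕ) : ℝ) - 1) * (R y + R x)) :=
          mul_le_mul_of_nonneg_left (min_le_right _ _) (by positivity)
      _ = 3 * (Q y * (R x + R y)) / (S - Q x) := by push_cast; ring
  have ht2 : ∑ z ∈ (T.erase x).erase y, rho T Q x y z *
      min (k : ℝ) ((((4 : ℕ) : ℝ) - 1) * (R z + R x)) ≤
      ∑ z ∈ (T.erase x).erase y, 3 * (Q x - Q y) / ((S - Q x) * (S - Q y)) *
        (Q z * n z + Q z * R x) := by
    apply sum_le_sum
    intro z hz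
    have hzT : z ∈ T := mem_of_mem_erase (mem_of_mem_erase hz)
    have hzy : z ≠ y := ne_of_mem_erase hz
    have hr : rho T Q x y z = Q z * (Q x - Q y) / ((S - Q x) * (S - Q y)) := by
      simp [rho, hzy, hy, hSdef]
    rw [hr]
    have hq := (h0 z hzT).le
    have hd : 0 ≤ Q x - Q y := by linarith
    calc Q z * (Q x - Q y) / ((S - Q x) * (S - Q y)) *
          min (k : ℝ) ((((4 : ℕ) : ℝ) - 1) * (R z + R x))
        ≤ Q z * (Q x - Q y) / ((S - Q x) * (S - Q y)) * ((((4 : ℕ) : ℝ) - 1) * (R z + R x)) :=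
          mul_le_mul_of_nonneg_left (min_le_right _ _) (by positivity)
      _ ≤ Q z * (Q x - Q y) / ((S - Q x) * (S - Q y)) * ((((4 : ℕ) : ℝ) - 1) * (n z + R x)) := by
          apply mul_le_mul_of_nonneg_left _ (by positivity)
          have := hn z hzT
          push_cast
          linarith
      _ = 3 * (Q x - Q y) / ((S - Q x) * (S - Q y)) * (Q z * n z + Q z * R x) := by
          push_cast; ring
  have ht3 : ∑ z ∈ (T.erase x).erase y, 3 * (Q x - Q y) / ((S - Q x) * (S - Q y)) *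
        (Q z * n z + Q z * R x) = 3 * (Q x - Q y) / ((S - Q x) * (S - Q y)) *
        (∑ c ∈ (T.erase x).erase y, Q c * n c + (S - Q x - Q y) * R x) := by
    rw [← mul_sum, sum_add_distrib, ← sum_mul, hS2]
  rw [ht3] at ht2
  have hfin : 3 * (Q y * (R x + R y)) / (S - Q x) + 3 * (Q x - Q y) / ((S - Q x) * (S - Q y)) *
        (∑ c ∈ (T.erase x).erase y, Q c * n c + (S - Q x - Q y) * R x) =
      3 * (Q y * (R x + R y) * (S - Q y) + (Q x - Q y) *
        (∑ c ∈ (T.erase x).erase y, Q c * n c + (S - Q x - Q y) * R x)) /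
        ((S - Q x) * (S - Q y)) := by
    field_simp
  linarith

theorem four_red_out {C : Type} (T : Finset C) (x y : C) (k : ℕ) (Q n R : C → ℝ) (hx : x ∈ T)
    (hy : y ∉ T) (h0 : ∀ z ∈ T, 0 < Q z) (hn : ∀ z ∈ T, R z ≤ n z)
    (hS : 0 < ∑ z ∈ T, Q z - Q x) :
    ∑ z ∈ T.erase x, rho T Q x y z * min (k : ℝ) ((((4 : ℕ) : ℝ) - 1) * (R z + R x)) ≤
      3 * (Q x * (∑ c ∈ T.erase x, Q c * n c + (∑ z ∈ T, Q z - Q x) * R x)) /
        ((∑ z ∈ T, Q z - Q x) * (∑ z ∈ T, Q z)) := by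
  set S := ∑ z ∈ T, Q z with hSdef
  have hqx := (h0 x hx).le
  have hS0 : 0 < S := by linarith
  have hS2 : ∑ z ∈ T.erase x, Q z = S - Q x := by
    have e1 := Finset.add_sum_erase T Q hx
    linarith
  have ht2 : ∑ z ∈ T.erase x, rho T Q x y z *
      min (k : ℝ) ((((4 : ℕ) : ℝ) - 1) * (R z + R x)) ≤
      ∑ z ∈ T.erase x, 3 * Q x / ((S - Q x) * S) * (Q z * n z + Q z * R x) := by
    apply sum_le_sum
    intro z hz
    have hzT : z ∈ T := mem_of_mem_erase hz
    have hzy : z ≠ y := fun h => hy (h ▸ hzT)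
    have hr : rho T Q x y z = Q z * Q x / ((S - Q x) * S) := by
      simp [rho, hzy, hy, hSdef]
    rw [hr]
    have hq := (h0 z hzT).le
    calc Q z * Q x / ((S - Q x) * S) *
          min (k : ℝ) ((((4 : ℕ) : ℝ) - 1) * (R z + R x))
        ≤ Q z * Q x / ((S - Q x) * S) * ((((4 : ℕ) : ℝ) - 1) * (R z + R x)) :=
          mul_le_mul_of_nonneg_left (min_le_right _ _) (by positivity)
      _ ≤ Q z * Q x / ((S - Q x) * S) * ((((4 : ℕ) : ℝ) - 1) * (n z + R x)) := by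
          apply mul_le_mul_of_nonneg_left _ (by positivity)
          have := hn z hzT
          push_cast
          linarith
      _ = 3 * Q x / ((S - Q x) * S) * (Q z * n z + Q z * R x) := by
          push_cast; ring
  have ht3 : ∑ z ∈ T.erase x, 3 * Q x / ((S - Q x) * S) *
        (Q z * n z + Q z * R x) = 3 * (Q x * (∑ c ∈ T.erase x, Q c * n c + (S - Q x) * R x)) /
        ((S - Q x) * S) := by
    rw [← mul_sum, sum_add_distrib, ← sum_mul, hS2]
    ring
  rw [ht3] at ht2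
  exact ht2

theorem four_O1 (a S : ℝ) (ha0 : 2/3 ≤ a) (ha : a ≤ 1) (hS : 3 ≤ S) :
    3 * (a * (a + (S - a) * (1 * (1 - a)))) ≤ 99/100 * ((S - a) * S) := by
  nlinarith [mul_nonneg (sub_nonneg.2 ha0) (sub_nonneg.2 ha), mul_nonneg (sub_nonneg.2 hS)
    (sub_nonneg.2 ha), mul_nonneg (sub_nonneg.2 hS) (sub_nonneg.2 ha0), sq_nonneg (S - 3),
    mul_nonneg (mul_nonneg (sub_nonneg.2 ha0) (sub_nonneg.2 ha)) (sub_nonneg.2 hS)]

theorem four_O2 (a S : ℝ) (ha0 : 4/9 ≤ a) (ha : a ≤ 1) (hS : 3 ≤ S) :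
    3 * (a * (((S - a) - (S - a) ^ 2 / 4 + (S - 3)) + (S - a) * (6/5 * (1 - a)))) ≤
      99/100 * ((S - a) * S) := by
  have h1 : 0 ≤ (S - 3) * (1 - a) := mul_nonneg (by linarith) (by linarith)
  have h2 : 0 ≤ (S - 3) * (a - 4/9) := mul_nonneg (by linarith) (by linarith)
  have h3 : 0 ≤ (a - 4/9) * (1 - a) := mul_nonneg (by linarith) (by linarith)
  nlinarith [mul_nonneg h3 (sub_nonneg.2 hS), sq_nonneg (S - 3), mul_nonneg (sq_nonneg (S - 3))
    (show (0:ℝ) ≤ a by linarith), mul_nonneg h3 (sub_nonneg.2 ha), mul_nonneg h3 (sub_nonneg.2 ha0)]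

theorem four_O2' (a S : ℝ) (ha0 : 4/9 ≤ a) (ha : a ≤ 1) (hS : 4 ≤ S) :
    3 * (a * ((1 + a) + (S - a) * (6/5 * (1 - a)))) ≤ 99/100 * ((S - a) * S) := by
  have h1 : 0 ≤ (S - 4) * (1 - a) := mul_nonneg (by linarith) (by linarith)
  have h2 : 0 ≤ (S - 4) * (a - 4/9) := mul_nonneg (by linarith) (by linarith)
  have h3 : 0 ≤ (a - 4/9) * (1 - a) := mul_nonneg (by linarith) (by linarith)
  nlinarith [mul_nonneg h3 (sub_nonneg.2 hS), sq_nonneg (S - 4)]

theorem four_O3 (a S : ℝ) (ha0 : 8/27 ≤ a) (ha : a ≤ 1) (hS : 3 ≤ S) :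
    3 * (a * (((S - a) - (S - a) ^ 2 / 5 + (S - 3)) + (S - a) * (27/19 * (1 - a)))) ≤
      99/100 * ((S - a) * S) := by
  have h1 : 0 ≤ (S - 3) * (1 - a) := mul_nonneg (by linarith) (by linarith)
  have h2 : 0 ≤ (S - 3) * (a - 8/27) := mul_nonneg (by linarith) (by linarith)
  have h3 : 0 ≤ (a - 8/27) * (1 - a) := mul_nonneg (by linarith) (by linarith)
  nlinarith [mul_nonneg h3 (sub_nonneg.2 hS), sq_nonneg (S - 3), mul_nonneg (sq_nonneg (S - 3))
    (show (0:ℝ) ≤ a by linarith), mul_nonneg h3 (sub_nonneg.2 ha), mul_nonneg h3 (sub_nonneg.2 ha0)]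

theorem four_O3' (a S : ℝ) (ha0 : 8/27 ≤ a) (ha : a ≤ 1) (hS : 4 ≤ S) :
    3 * (a * ((2 + a) + (S - a) * (27/19 * (1 - a)))) ≤ 99/100 * ((S - a) * S) := by
  have h1 : 0 ≤ (S - 4) * (1 - a) := mul_nonneg (by linarith) (by linarith)
  have h2 : 0 ≤ (S - 4) * (a - 8/27) := mul_nonneg (by linarith) (by linarith)
  have h3 : 0 ≤ (a - 8/27) * (1 - a) := mul_nonneg (by linarith) (by linarith)
  nlinarith [mul_nonneg h3 (sub_nonneg.2 hS), sq_nonneg (S - 4), mul_nonneg h3 (sub_nonneg.2 ha),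
    mul_nonneg h3 (sub_nonneg.2 ha0)]

theorem t_crude {C : Type} (T' : Finset C) (Q n : C → ℝ) (h1 : ∀ z ∈ T', Q z ≤ 1)
    (hn : ∀ z ∈ T', 0 ≤ n z) : ∑ c ∈ T', Q c * n c ≤ ∑ c ∈ T', n c := by
  apply sum_le_sum
  intro c hc
  nlinarith [h1 c hc, hn c hc]

theorem t_fine {C : Type} (T' : Finset C) (Q n : C → ℝ) (h1 : ∀ z ∈ T', Q z ≤ 1)
    (hn : ∀ z ∈ T', 1 - Q z ≤ n z) (m : ℝ) (hm : 0 < m) (hT : (T'.card : ℝ) = m) :
    ∑ c ∈ T', Q c * n c ≤ 2 * ∑ c ∈ T', Q c - (∑ c ∈ T', Q c) ^ 2 / m + (∑ c ∈ T', n c - m) := by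
  have hcs : (∑ c ∈ T', Q c) ^ 2 ≤ (T'.card : ℝ) * ∑ c ∈ T', Q c ^ 2 :=
    sq_sum_le_card_mul_sum_sq
  have h2 : ∑ c ∈ T', Q c * n c ≤ ∑ c ∈ T', (2 * Q c - Q c ^ 2 + n c - 1) := by
    apply sum_le_sum
    intro c hc
    nlinarith [h1 c hc, hn c hc]
  have h3 : ∑ c ∈ T', (2 * Q c - Q c ^ 2 + n c - 1) =
      2 * ∑ c ∈ T', Q c - ∑ c ∈ T', Q c ^ 2 + ∑ c ∈ T', n c - m := by
    rw [sum_sub_distrib, sum_add_distrib, sum_sub_distrib, ← mul_sum]
    simp [hT]
  rw [hT] at hcs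
  have h4 : (∑ c ∈ T', Q c) ^ 2 / m ≤ ∑ c ∈ T', Q c ^ 2 := by
    rw [div_le_iff₀ hm]
    linarith
  linarith

theorem kap_four : Kap 4 2 (99 / 100) := by
  intro C T x y k Q n R hx hxy hk hT hC hn hQ
  have h0 : ∀ z ∈ T, 0 < Q z := fun z hz => (hC z hz).1
  have h1 : ∀ z ∈ T, Q z ≤ 1 := fun z hz => (hC z hz).2.1
  have hn1 : ∀ z ∈ T, 1 - Q z ≤ n z := fun z hz => (hC z hz).2.2.1
  have hR0 : ∀ z ∈ T, 0 ≤ R z := fun z hz => (hC z hz).2.2.2.1
  have hRn : ∀ z ∈ T, R z ≤ n z := fun z hz => (hC z hz).2.2.2.2.1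
  have hn0 : ∀ z ∈ T, 0 ≤ n z := fun z hz => le_trans (hR0 z hz) (hRn z hz)
  set S := ∑ z ∈ T, Q z with hSdef
  have hSl : (T.card : ℝ) - k ≤ S := by
    have : ∑ z ∈ T, (1 - Q z) ≤ ∑ z ∈ T, n z := sum_le_sum hn1
    rw [sum_sub_distrib] at this
    simp only [sum_const, nsmul_eq_mul, mul_one] at this
    linarith
  have hTk : (2 : ℝ) + k + 1 ≤ T.card := by exact_mod_cast hT
  have hS3 : 3 ≤ S := by linarith
  have hxQ := h1 x hx
  have hx0 := h0 x hx
  -- k = 0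
  rcases Nat.eq_zero_or_pos k with hk0 | hkpos
  · subst hk0
    have : ∑ z ∈ T.erase x, rho T Q x y z *
        min (((0 : ℕ) : ℝ)) ((((4 : ℕ) : ℝ) - 1) * (R z + R x)) = 0 := by
      apply sum_eq_zero
      intro z hz
      have hz' := hR0 z (mem_of_mem_erase hz)
      have hx' := hR0 x hx
      have : min (((0 : ℕ) : ℝ)) ((((4 : ℕ) : ℝ) - 1) * (R z + R x)) = 0 := by
        push_cast
        apply min_eq_left
        nlinarith
      rw [this, mul_zero]
    rw [this]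
    norm_num
  have hSx : 0 < S - Q x := by linarith
  by_cases hy : y ∈ T
  · have hyQ := h1 y hy
    have hy0 := h0 y hy
    have hyx := hQ hy
    have hy' : y ∈ T.erase x := mem_erase.2 ⟨fun h => hxy h.symm, hy⟩
    have hsub : ∀ z ∈ (T.erase x).erase y, z ∈ T :=
      fun z hz => mem_of_mem_erase (mem_of_mem_erase hz)
    have hS2 : ∑ z ∈ (T.erase x).erase y, Q z = S - Q x - Q y := by
      have e1 := Finset.add_sum_erase T Q hx
      have e2 := Finset.add_sum_erase (T.erase x) Q hy'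
      linarith
    have hn2 : ∑ z ∈ (T.erase x).erase y, n z ≤ k - 2 + Q x + Q y := by
      have e1 := Finset.add_sum_erase T n hx
      have e2 := Finset.add_sum_erase (T.erase x) n hy'
      have e3 := hn1 x hx
      have e4 := hn1 y hy
      linarith
    have hred := four_red_in T x y k Q n R hx hy hxy h0 hRn hyx hSx
    refine hred.trans ?_
    rw [div_le_iff₀ (by apply mul_pos hSx; linarith)]
    set T2 := ∑ c ∈ (T.erase x).erase y, Q c * n c with hT2
    have hcr : T2 ≤ k - 2 + Q x + Q y :=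
      (t_crude _ Q n (fun z hz => h1 z (hsub z hz)) (fun z hz => hn0 z (hsub z hz))).trans hn2
    have hSxy : 0 ≤ S - Q x - Q y := by linarith
    have hd : 0 ≤ Q x - Q y := by linarith
    have hSy : 0 ≤ S - Q y := by linarith
    -- a general step
    have step : ∀ (ρ c : ℝ), 0 ≤ ρ → R x ≤ ρ * (1 - Q x) → R y ≤ ρ * (1 - Q y) → T2 ≤ c →
        3 * (Q y * (R x + R y) * (S - Q y) + (Q x - Q y) * (T2 + (S - Q x - Q y) * R x)) ≤
        3 * (Q y * (ρ * (2 - Q x - Q y)) * (S - Q y) + (Q x - Q y) * (c +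
          (S - Q x - Q y) * (ρ * (1 - Q x)))) := by
      intro ρ c hρ hRx hRy hc
      have a1 : Q y * (R x + R y) * (S - Q y) ≤ Q y * (ρ * (2 - Q x - Q y)) * (S - Q y) := by
        apply mul_le_mul_of_nonneg_right _ hSy
        apply mul_le_mul_of_nonneg_left _ hy0.le
        linarith
      have a2 : (Q x - Q y) * (T2 + (S - Q x - Q y) * R x) ≤ (Q x - Q y) * (c +
          (S - Q x - Q y) * (ρ * (1 - Q x))) := by
        apply mul_le_mul_of_nonneg_left _ hd
        have := mul_le_mul_of_nonneg_left hRx hSxy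
        linarith
      linarith
    have hk3 : k = 1 ∨ k = 2 ∨ k = 3 := by omega
    rcases hk3 with rfl | rfl | rfl
    · obtain ⟨bx, rx⟩ := cost_one _ _ _ (hC x hx)
      obtain ⟨by', ry⟩ := cost_one _ _ _ (hC y hy)
      have := step 1 (-1 + Q x + Q y) (by norm_num) rx ry (by push_cast at hcr; linarith)
      exact this.trans (four_P1 _ _ _ by' hyx hxQ hS3)
    · obtain ⟨bx, rx⟩ := cost_two _ _ _ (hC x hx)
      obtain ⟨by', ry⟩ := cost_two _ _ _ (hC y hy)
      have := step (6/5) (0 + Q x + Q y) (by norm_num) rx ry (by push_cast at hcr; linarith)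
      exact this.trans (four_P2 _ _ _ by' hyx hxQ hS3)
    · obtain ⟨bx, rx⟩ := cost_three _ _ _ (hC x hx)
      obtain ⟨by', ry⟩ := cost_three _ _ _ (hC y hy)
      by_cases h6 : T.card = 6
      · have hcard : ((((T.erase x).erase y).card : ℕ) : ℝ) = 4 := by
          rw [card_erase_of_mem hy', card_erase_of_mem hx, h6]
          norm_num
        have hf := t_fine ((T.erase x).erase y) Q n (fun z hz => h1 z (hsub z hz))
          (fun z hz => hn1 z (hsub z hz)) 4 (by norm_num) hcard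
        rw [hS2, ← hT2] at hf
        have hf' : T2 ≤ (S - Q x - Q y) - (S - Q x - Q y) ^ 2 / 4 + (S - 3) := by
          push_cast at hn2
          linarith
        have := step (27/19) _ (by norm_num) rx ry hf'
        exact this.trans (four_P3S _ _ _ by' hyx hxQ hS3)
      · have h7 : 7 ≤ T.card := by omega
        have hS4 : 4 ≤ S := by
          have : (7 : ℝ) ≤ T.card := by exact_mod_cast h7
          push_cast at hSl
          linarith
        have := step (27/19) (1 + Q x + Q y) (by norm_num) rx ry (by push_cast at hcr; linarith)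
        exact this.trans (four_P3' _ _ _ by' hyx hxQ hS4)
  · have hsub : ∀ z ∈ T.erase x, z ∈ T := fun z hz => mem_of_mem_erase hz
    have hS2 : ∑ z ∈ T.erase x, Q z = S - Q x := by
      have e1 := Finset.add_sum_erase T Q hx
      linarith
    have hn2 : ∑ z ∈ T.erase x, n z ≤ k - 1 + Q x := by
      have e1 := Finset.add_sum_erase T n hx
      have e3 := hn1 x hx
      linarith
    have hred := four_red_out T x y k Q n R hx hy h0 hRn hSx
    refine hred.trans ?_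
    rw [div_le_iff₀ (by apply mul_pos hSx; linarith)]
    set T2 := ∑ c ∈ T.erase x, Q c * n c with hT2
    have hcr : T2 ≤ k - 1 + Q x :=
      (t_crude _ Q n (fun z hz => h1 z (hsub z hz)) (fun z hz => hn0 z (hsub z hz))).trans hn2
    have step : ∀ (ρ c : ℝ), R x ≤ ρ * (1 - Q x) → T2 ≤ c →
        3 * (Q x * (T2 + (S - Q x) * R x)) ≤
        3 * (Q x * (c + (S - Q x) * (ρ * (1 - Q x)))) := by
      intro ρ c hRx hc
      have a2 : Q x * (T2 + (S - Q x) * R x) ≤ Q x * (c + (S - Q x) * (ρ * (1 - Q x))) := by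
        apply mul_le_mul_of_nonneg_left _ hx0.le
        have := mul_le_mul_of_nonneg_left hRx hSx.le
        linarith
      linarith
    have hk3 : k = 1 ∨ k = 2 ∨ k = 3 := by omega
    rcases hk3 with rfl | rfl | rfl
    · obtain ⟨bx, rx⟩ := cost_one _ _ _ (hC x hx)
      have := step 1 (Q x) rx (by push_cast at hcr; linarith)
      exact this.trans (four_O1 _ _ bx hxQ hS3)
    · obtain ⟨bx, rx⟩ := cost_two _ _ _ (hC x hx)
      by_cases h5 : T.card = 5
      · have hcard : (((T.erase x).card : ℕ) : ℝ) = 4 := by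
          rw [card_erase_of_mem hx, h5]
          norm_num
        have hf := t_fine (T.erase x) Q n (fun z hz => h1 z (hsub z hz))
          (fun z hz => hn1 z (hsub z hz)) 4 (by norm_num) hcard
        rw [hS2, ← hT2] at hf
        have hf' : T2 ≤ (S - Q x) - (S - Q x) ^ 2 / 4 + (S - 3) := by
          push_cast at hn2
          linarith
        exact (step (6/5) _ rx hf').trans (four_O2 _ _ bx hxQ hS3)
      · have h7 : 6 ≤ T.card := by omega
        have hS4 : 4 ≤ S := by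
          have : (6 : ℝ) ≤ T.card := by exact_mod_cast h7
          push_cast at hSl
          linarith
        exact (step (6/5) (1 + Q x) rx (by push_cast at hcr; linarith)).trans
          (four_O2' _ _ bx hxQ hS4)
    · obtain ⟨bx, rx⟩ := cost_three _ _ _ (hC x hx)
      by_cases h6 : T.card = 6
      · have hcard : (((T.erase x).card : ℕ) : ℝ) = 5 := by
          rw [card_erase_of_mem hx, h6]
          norm_num
        have hf := t_fine (T.erase x) Q n (fun z hz => h1 z (hsub z hz))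
          (fun z hz => hn1 z (hsub z hz)) 5 (by norm_num) hcard
        rw [hS2, ← hT2] at hf
        have hf' : T2 ≤ (S - Q x) - (S - Q x) ^ 2 / 5 + (S - 3) := by
          push_cast at hn2
          linarith
        exact (step (27/19) _ rx hf').trans (four_O3 _ _ bx hxQ hS3)
      · have h7 : 7 ≤ T.card := by omega
        have hS4 : 4 ≤ S := by
          have : (7 : ℝ) ≤ T.card := by exact_mod_cast h7
          push_cast at hSl
          linarith
        exact (step (27/19) (2 + Q x) rx (by push_cast at hcr; linarith)).trans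
          (four_O3' _ _ bx hxQ hS4)

end Pool.Agent.KempeWas
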