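import Pool.Agent.Lib.MP_26a019_lc.Was.WDefs

set_option autoImplicit false

open Finset Classical

namespace Pool.Agent.KempeWas

open Pool.Agent.Kempe Pool.Agent.KempeMix

/-- `∑ Q n ≤ S^2 (k / l) / (l - k)`: put `n = 1 - Q + e`, `∑ e ≤ S - (l - k)`,
`∑ Q n ≤ S - S^2 / l + S - (l - k)`, and `(S - (l - k))^2 ≥ 0`. -/
theorem sum_Qn (k : ℝ) {C : Type} (T : Finset C) (Q n : C → ℝ) (h0 : ∀ z ∈ T, 0 ≤ Q z)
    (h1 : ∀ z ∈ T, Q z ≤ 1) (hn : ∀ z ∈ T, 1 - Q z ≤ n z) (hk0 : 0 ≤ k) (hk : ∑ z ∈ T, n z ≤ k)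
    (hT : k < (T.card : ℝ)) :
    ∑ z ∈ T, Q z * n z ≤ (∑ z ∈ T, Q z) ^ 2 * (k / (T.card : ℝ)) / ((T.card : ℝ) - k) := by
  have hl : (0 : ℝ) < T.card := lt_of_le_of_lt hk0 hT
  have hg : (0 : ℝ) < (T.card : ℝ) - k := by linarith
  have hcs : (∑ c ∈ T, Q c) ^ 2 ≤ (T.card : ℝ) * ∑ c ∈ T, Q c ^ 2 :=
    sq_sum_le_card_mul_sum_sq
  have h2 : ∑ c ∈ T, Q c * n c ≤ ∑ c ∈ T, (2 * Q c - Q c ^ 2 + n c - 1) := by
    apply sum_le_sum
    intro c hc
    nlinarith [h1 c hc, hn c hc]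
  have h3 : ∑ c ∈ T, (2 * Q c - Q c ^ 2 + n c - 1) =
      2 * ∑ c ∈ T, Q c - ∑ c ∈ T, Q c ^ 2 + ∑ c ∈ T, n c - T.card := by
    rw [sum_sub_distrib, sum_add_distrib, sum_sub_distrib, ← mul_sum]
    simp
  set S := ∑ z ∈ T, Q z with hS
  have h4 : S ^ 2 / (T.card : ℝ) ≤ ∑ c ∈ T, Q c ^ 2 := by
    rw [div_le_iff₀ hl]
    linarith
  have h5 : S ^ 2 * (k / (T.card : ℝ)) / ((T.card : ℝ) - k) =
      S ^ 2 / ((T.card : ℝ) - k) - S ^ 2 / (T.card : ℝ) := by
    field_simp
    ring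
  have h6 : 2 * S - ((T.card : ℝ) - k) ≤ S ^ 2 / ((T.card : ℝ) - k) := by
    rw [le_div_iff₀ hg]
    nlinarith [sq_nonneg (S - ((T.card : ℝ) - k))]
  rw [h5]
  linarith

theorem alg_aux (u d s g m : ℝ) (hs : s ≠ 0) : u * d / s * (s / g * m) = u * (d * m) / g := by
  field_simp

theorem kap_of_phi (Δ r : ℕ) (hr : 1 ≤ r) (hΔ : 1 ≤ Δ) (κ : ℝ)
    (hφ : ∀ (k : ℕ) (a b A B : ℝ), k + 1 ≤ Δ → 0 ≤ b → b ≤ a → a ≤ 1 → 0 ≤ A → 0 ≤ B →
      a ≤ Real.exp (-A) → b ≤ Real.exp (-B) →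
      ((Δ : ℝ) - 1) / r * (b * min 1 (A + B) +
        (a - b) * min 1 (((Δ : ℝ) - 1) / (r + Δ - 1) + A)) ≤ κ) :
    Kap Δ r κ := by
  intro C T x y k Q n R hx hxy hk hT hC hn hQ
  have h0 : ∀ z ∈ T, 0 < Q z := fun z hz => (hC z hz).1
  have h1 : ∀ z ∈ T, Q z ≤ 1 := fun z hz => (hC z hz).2.1
  have hn1 : ∀ z ∈ T, 1 - Q z ≤ n z := fun z hz => (hC z hz).2.2.1
  have hR0 : ∀ z ∈ T, 0 ≤ R z := fun z hz => (hC z hz).2.2.2.1
  have hRn : ∀ z ∈ T, R z ≤ n z := fun z hz => (hC z hz).2.2.2.2.1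
  have hn0 : ∀ z ∈ T, 0 ≤ n z := fun z hz => le_trans (hR0 z hz) (hRn z hz)
  have hexp : ∀ z ∈ T, Q z ≤ Real.exp (-(R z)) := by
    intro z hz
    obtain ⟨-, -, -, -, -, β, hβ, hQ', hR'⟩ := hC z hz
    rw [hQ']
    calc ∏ i, (1 - β i) ≤ ∏ i, Real.exp (-(β i)) := by
          apply prod_le_prod
          · intro i _
            have := (hβ i).2
            have h2 : 1 / ((r : ℝ) + 1) ≤ 1 := by
              rw [div_le_one (by positivity)]
              have : (0 : ℝ) ≤ r := by positivity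
              linarith
            linarith
          · intro i _
            have := Real.add_one_le_exp (-(β i))
            linarith
      _ = Real.exp (-(∑ i, β i)) := by
          rw [← Real.exp_sum, sum_neg_distrib]
      _ ≤ Real.exp (-(R z)) := Real.exp_le_exp.2 (by linarith)
  set S := ∑ z ∈ T, Q z with hSdef
  set Qy : ℝ := if y ∈ T then Q y else 0 with hQy
  set Ry : ℝ := if y ∈ T then R y else 0 with hRy
  have hrr : (1 : ℝ) ≤ r := by exact_mod_cast hr
  have hDD : (1 : ℝ) ≤ Δ := by exact_mod_cast hΔ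
  have hkD : (k : ℝ) ≤ (Δ : ℝ) - 1 := by
    have : (k : ℝ) + 1 ≤ Δ := by exact_mod_cast hk
    linarith
  have hk0 : (0 : ℝ) ≤ k := by positivity
  have hT' : (r : ℝ) + k + 1 ≤ T.card := by exact_mod_cast hT
  have hQy0 : 0 ≤ Qy := by
    rw [hQy]; split_ifs with h
    · exact (h0 y h).le
    · exact le_rfl
  have hRy0 : 0 ≤ Ry := by
    rw [hRy]; split_ifs with h
    · exact hR0 y h
    · exact le_rfl
  have hQyx : Qy ≤ Q x := by
    rw [hQy]; split_ifs with h
    · exact hQ h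
    · exact (h0 x hx).le
  have hQyE : Qy ≤ Real.exp (-Ry) := by
    rw [hQy, hRy]; split_ifs with h
    · exact hexp y h
    · positivity
  set S1 := S - Q x with hS1
  have hS1s : ∑ z ∈ T.erase x, Q z = S1 := by
    have e1 := Finset.add_sum_erase T Q hx
    linarith
  have hcard : ((T.erase x).card : ℝ) = T.card - 1 := by
    rw [card_erase_of_mem hx]
    have : 1 ≤ T.card := by omega
    push_cast [Nat.cast_sub this]
    ring
  have hn2 : ∑ z ∈ T.erase x, n z ≤ k := by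
    have e1 := Finset.add_sum_erase T n hx
    have e3 := hn0 x hx
    linarith
  have hg : (r : ℝ) ≤ (T.card : ℝ) - 1 - k := by linarith
  have hS1g : (T.card : ℝ) - 1 - k ≤ S1 := by
    have : ∑ z ∈ T.erase x, (1 - Q z) ≤ ∑ z ∈ T.erase x, n z :=
      sum_le_sum (fun z hz => hn1 z (mem_of_mem_erase hz))
    rw [sum_sub_distrib] at this
    simp only [sum_const, nsmul_eq_mul, mul_one] at this
    rw [hcard, hS1s] at this
    linarith
  have hS1pos : 0 < S1 := by linarith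
  have hSy : S1 ≤ S - Qy := by rw [hS1]; linarith
  -- the bound for the sum of Q min
  set g : ℝ := (T.card : ℝ) - 1 - k with hgdef
  have hgpos : 0 < g := by linarith
  set t : ℝ := ((Δ : ℝ) - 1) / (r + Δ - 1) with ht
  have htk : (k : ℝ) / ((T.card : ℝ) - 1) ≤ t := by
    rw [ht, div_le_div_iff₀ (by linarith) (by linarith)]
    nlinarith
  have hRx0 := hR0 x hx
  have hsum : ∑ z ∈ T.erase x, Q z * min 1 (R z + R x) ≤ S1 ^ 2 / g * min 1 (t + R x) := by
    have hle1 : ∑ z ∈ T.erase x, Q z * min 1 (R z + R x) ≤ S1 := by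
      rw [← hS1s]
      apply sum_le_sum
      intro z hz
      have := (h0 z (mem_of_mem_erase hz)).le
      calc Q z * min 1 (R z + R x) ≤ Q z * 1 := mul_le_mul_of_nonneg_left (min_le_left _ _) this
        _ = Q z := mul_one _
    have hle2 : ∑ z ∈ T.erase x, Q z * min 1 (R z + R x) ≤
        ∑ z ∈ T.erase x, Q z * n z + S1 * R x := by
      rw [← hS1s, sum_mul, ← sum_add_distrib]
      apply sum_le_sum
      intro z hz
      have h0z := (h0 z (mem_of_mem_erase hz)).le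
      have hnz := hRn z (mem_of_mem_erase hz)
      calc Q z * min 1 (R z + R x) ≤ Q z * (n z + R x) := by
            apply mul_le_mul_of_nonneg_left _ h0z
            exact (min_le_right _ _).trans (by linarith)
        _ = Q z * n z + Q z * R x := by ring
    have hQn := sum_Qn (k : ℝ) (T.erase x) Q n (fun z hz => (h0 z (mem_of_mem_erase hz)).le)
      (fun z hz => h1 z (mem_of_mem_erase hz)) (fun z hz => hn1 z (mem_of_mem_erase hz)) hk0 hn2
      (by rw [hcard]; linarith)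
    rw [hcard, hS1s] at hQn
    have hSg : S1 ≤ S1 ^ 2 / g := by
      rw [le_div_iff₀ hgpos]
      nlinarith
    have hSg0 : 0 ≤ S1 ^ 2 / g := by positivity
    rcases le_total 1 (t + R x) with h | h
    · rw [min_eq_left h, mul_one]
      exact hle1.trans hSg
    · rw [min_eq_right h]
      refine hle2.trans ?_
      have e1 : S1 ^ 2 * ((k : ℝ) / ((T.card : ℝ) - 1)) / ((T.card : ℝ) - 1 - k) ≤
          S1 ^ 2 / g * t := by
        rw [← hgdef]
        calc S1 ^ 2 * ((k : ℝ) / ((T.card : ℝ) - 1)) / g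
            = S1 ^ 2 / g * ((k : ℝ) / ((T.card : ℝ) - 1)) := by ring
          _ ≤ S1 ^ 2 / g * t := mul_le_mul_of_nonneg_left htk hSg0
      have e2 : S1 * R x ≤ S1 ^ 2 / g * R x := mul_le_mul_of_nonneg_right hSg hRx0
      calc ∑ z ∈ T.erase x, Q z * n z + S1 * R x ≤ S1 ^ 2 / g * t + S1 ^ 2 / g * R x := by
            linarith
        _ = S1 ^ 2 / g * (t + R x) := by ring
  -- termwise
  have hterm : ∀ z ∈ T.erase x, rho T Q x y z * min (k : ℝ) (((Δ : ℝ) - 1) * (R z + R x)) ≤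
      (if z = y then ((Δ : ℝ) - 1) / r * (Qy * min 1 (R x + Ry)) else 0) +
      ((Δ : ℝ) - 1) * (Q x - Qy) / S1 ^ 2 * (Q z * min 1 (R z + R x)) := by
    intro z hz
    have hzT := mem_of_mem_erase hz
    have h0z := (h0 z hzT).le
    have hRz := hR0 z hzT
    have hmin : min (k : ℝ) (((Δ : ℝ) - 1) * (R z + R x)) ≤
        ((Δ : ℝ) - 1) * min 1 (R z + R x) := by
      rcases le_total 1 (R z + R x) with h | h
      · rw [min_eq_left h, mul_one]
        exact (min_le_left _ _).trans hkD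
      · rw [min_eq_right h]
        exact min_le_right _ _
    have hm0 : 0 ≤ min 1 (R z + R x) := le_min zero_le_one (by linarith)
    have hrest : 0 ≤ ((Δ : ℝ) - 1) * (Q x - Qy) / S1 ^ 2 * (Q z * min 1 (R z + R x)) := by
      have : 0 ≤ (Δ : ℝ) - 1 := by linarith
      have : 0 ≤ Q x - Qy := by linarith
      positivity
    by_cases hzy : z = y
    · subst hzy
      have hrho : rho T Q x z z = Q z / S1 := by simp [rho, hS1, hSdef]
      have e1 : Qy = Q z := by rw [hQy, if_pos hzT]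
      have e2 : Ry = R z := by rw [hRy, if_pos hzT]
      rw [if_pos rfl, hrho, e2]
      rw [e1] at hrest ⊢
      have : Q z / S1 * min (k : ℝ) (((Δ : ℝ) - 1) * (R z + R x)) ≤
          ((Δ : ℝ) - 1) / r * (Q z * min 1 (R x + R z)) := by
        calc Q z / S1 * min (k : ℝ) (((Δ : ℝ) - 1) * (R z + R x))
            ≤ Q z / S1 * (((Δ : ℝ) - 1) * min 1 (R z + R x)) :=
              mul_le_mul_of_nonneg_left hmin (by positivity)
          _ = ((Δ : ℝ) - 1) * (Q z * min 1 (R z + R x)) / S1 := by ring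
          _ ≤ ((Δ : ℝ) - 1) * (Q z * min 1 (R z + R x)) / r := by
              apply div_le_div_of_nonneg_left _ (by linarith) (by linarith)
              have : 0 ≤ (Δ : ℝ) - 1 := by linarith
              positivity
          _ = ((Δ : ℝ) - 1) / r * (Q z * min 1 (R x + R z)) := by
              rw [add_comm (R z) (R x)]; ring
      linarith
    · rw [if_neg hzy, zero_add]
      have hrho : rho T Q x y z = Q z * (Q x - Qy) / (S1 * (S - Qy)) := by
        simp only [rho, if_neg hzy, hS1, hSdef, hQy]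
      rw [hrho]
      have hd : 0 ≤ Q x - Qy := by linarith
      have hD0 : 0 ≤ (Δ : ℝ) - 1 := by linarith
      have hSS : S1 ^ 2 ≤ S1 * (S - Qy) := by nlinarith
      calc Q z * (Q x - Qy) / (S1 * (S - Qy)) * min (k : ℝ) (((Δ : ℝ) - 1) * (R z + R x))
          ≤ Q z * (Q x - Qy) / S1 ^ 2 * (((Δ : ℝ) - 1) * min 1 (R z + R x)) := by
            apply mul_le_mul _ hmin
            · apply le_min hk0
              positivity
            · positivity
            · apply div_le_div_of_nonneg_left (by positivity) (by positivity) hSS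
        _ = ((Δ : ℝ) - 1) * (Q x - Qy) / S1 ^ 2 * (Q z * min 1 (R z + R x)) := by ring
  refine (sum_le_sum hterm).trans ?_
  rw [sum_add_distrib, ← mul_sum]
  have hD0 : 0 ≤ (Δ : ℝ) - 1 := by linarith
  have hd : 0 ≤ Q x - Qy := by linarith
  have hmA : 0 ≤ min 1 (R x + Ry) := le_min zero_le_one (by linarith)
  have ht0 : 0 ≤ t := by
    rw [ht]
    apply div_nonneg hD0
    linarith
  have hmt : 0 ≤ min 1 (t + R x) := le_min zero_le_one (by linarith)
  have hfirst : ∑ z ∈ T.erase x, (if z = y then ((Δ : ℝ) - 1) / r * (Qy * min 1 (R x + Ry))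
      else 0) ≤ ((Δ : ℝ) - 1) / r * (Qy * min 1 (R x + Ry)) := by
    rw [sum_ite_eq']
    split_ifs
    · exact le_rfl
    · positivity
  have hsecond : ((Δ : ℝ) - 1) * (Q x - Qy) / S1 ^ 2 *
      ∑ z ∈ T.erase x, Q z * min 1 (R z + R x) ≤
      ((Δ : ℝ) - 1) / r * ((Q x - Qy) * min 1 (t + R x)) := by
    calc ((Δ : ℝ) - 1) * (Q x - Qy) / S1 ^ 2 * ∑ z ∈ T.erase x, Q z * min 1 (R z + R x)
        ≤ ((Δ : ℝ) - 1) * (Q x - Qy) / S1 ^ 2 * (S1 ^ 2 / g * min 1 (t + R x)) :=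
          mul_le_mul_of_nonneg_left hsum (by positivity)
      _ = ((Δ : ℝ) - 1) * ((Q x - Qy) * min 1 (t + R x)) / g :=
          alg_aux _ _ _ _ _ (by positivity)
      _ ≤ ((Δ : ℝ) - 1) * ((Q x - Qy) * min 1 (t + R x)) / r := by
          apply div_le_div_of_nonneg_left (by positivity) (by linarith) hg
      _ = ((Δ : ℝ) - 1) / r * ((Q x - Qy) * min 1 (t + R x)) := by ring
  have hfin := hφ k (Q x) Qy (R x) Ry hk hQy0 hQyx (h1 x hx) hRx0 hRy0 (hexp x hx) hQyE
  calc _ ≤ ((Δ : ℝ) - 1) / r * (Qy * min 1 (R x + Ry)) +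
        ((Δ : ℝ) - 1) / r * ((Q x - Qy) * min 1 (t + R x)) := add_le_add hfirst hsecond
    _ = ((Δ : ℝ) - 1) / r * (Qy * min 1 (R x + Ry) + (Q x - Qy) * min 1 (t + R x)) := by ring
    _ ≤ κ := hfin

end Pool.Agent.KempeWas
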