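import Pool.Agent.Lib.MP_26a019_lc.Was.WDefs

set_option autoImplicit false

open Finset Classical

namespace Pool.Agent.KempeWas

open Pool.Agent.Kempe Pool.Agent.KempeMix

variable {V C : Type} [Fintype V] [Fintype C]

/-- Use `-h`. -/
theorem wb_symm (A B : Finset (V → C)) (D : ℝ) (h : WB A B D) : WB B A D := by
  intro g hg
  have hL : Lip (fun f => -g f) := by
    intro f f' w hf
    have := hg f' f w (fun u hu => (hf u hu).symm)
    show -g f - -g f' ≤ 1
    linarith
  have := h (fun f => -g f) hL
  have e : ∀ A : Finset (V → C), ev A (fun f => -g f) = - ev A g := by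
    intro A
    unfold ev
    rw [Finset.sum_neg_distrib, neg_div]
  rw [e, e] at this
  linarith

theorem wb_refl (A : Finset (V → C)) (D : ℝ) (hD : 0 ≤ D) : WB A A D := by
  intro g _
  linarith [sub_self (ev A g)]

theorem wb_trans (A B E : Finset (V → C)) (D D' : ℝ) (h : WB A B D) (h' : WB B E D') :
    WB A E (D + D') := by
  intro g hg
  have h1 := h g hg
  have h2 := h' g hg
  linarith

theorem wb_mono (A B : Finset (V → C)) (D D' : ℝ) (h : WB A B D) (hD : D ≤ D') : WB A B D' := by
  intro g hg
  exact (h g hg).trans hD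

/-- the sum over `A` is the cardinality times the mean -/
theorem card_mul_ev (A : Finset (V → C)) (g : (V → C) → ℝ) :
    (A.card : ℝ) * ev A g = ∑ f ∈ A, g f := by
  unfold ev
  rcases Finset.eq_empty_or_nonempty A with h | h
  · subst h; simp
  · have : (A.card : ℝ) ≠ 0 := by
      exact_mod_cast (Finset.card_pos.2 h).ne'
    field_simp

/-- Two-part mixture on the left: `A` is split by a predicate. (Split also when a part is empty:
its weight is zero, and then nothing is required of it.) -/
theorem wb_split (A B : Finset (V → C)) (P : (V → C) → Prop) (D1 D2 : ℝ) (hA : A.Nonempty)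
    (h1 : (A.filter P).Nonempty → WB (A.filter P) B D1)
    (h2 : (A.filter (fun f => ¬ P f)).Nonempty → WB (A.filter (fun f => ¬ P f)) B D2) :
    WB A B ((((A.filter P).card : ℝ) * D1 + ((A.filter (fun f => ¬ P f)).card : ℝ) * D2) /
      (A.card : ℝ)) := by
  intro g hg
  have hc : (0 : ℝ) < A.card := by exact_mod_cast Finset.card_pos.2 hA
  rw [le_div_iff₀ hc]
  have hcard : ((A.filter P).card : ℝ) + ((A.filter (fun f => ¬ P f)).card : ℝ) = A.card := by
    exact_mod_cast Finset.card_filter_add_card_filter_not P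
  have hsum : ((A.filter P).card : ℝ) * ev (A.filter P) g +
      ((A.filter (fun f => ¬ P f)).card : ℝ) * ev (A.filter (fun f => ¬ P f)) g =
      (A.card : ℝ) * ev A g := by
    rw [card_mul_ev, card_mul_ev, card_mul_ev]
    exact Finset.sum_filter_add_sum_filter_not A P g
  have k1 : ((A.filter P).card : ℝ) * (ev (A.filter P) g - ev B g) ≤
      ((A.filter P).card : ℝ) * D1 := by
    rcases Finset.eq_empty_or_nonempty (A.filter P) with h | h
    · rw [h]; simp
    · exact mul_le_mul_of_nonneg_left (h1 h g hg) (Nat.cast_nonneg _)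
  have k2 : ((A.filter (fun f => ¬ P f)).card : ℝ) * (ev (A.filter (fun f => ¬ P f)) g - ev B g) ≤
      ((A.filter (fun f => ¬ P f)).card : ℝ) * D2 := by
    rcases Finset.eq_empty_or_nonempty (A.filter (fun f => ¬ P f)) with h | h
    · rw [h]; simp
    · exact mul_le_mul_of_nonneg_left (h2 h g hg) (Nat.cast_nonneg _)
  have k3 : (((A.filter P).card : ℝ) + ((A.filter (fun f => ¬ P f)).card : ℝ)) * ev B g =
      (A.card : ℝ) * ev B g := by rw [hcard]
  rw [mul_sub] at k1 k2
  rw [add_mul] at k3
  have k4 : (ev A g - ev B g) * (A.card : ℝ) = (A.card : ℝ) * ev A g - (A.card : ℝ) * ev B g := by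
    ring
  rw [k4]
  linarith

/-- Mixture on the right, by the colour of `u`. -/
theorem wb_mix_right (A B : Finset (V → C)) (u : V) (D : ℝ) (hB : B.Nonempty)
    (h : ∀ c : C, (B.filter (fun f => f u = c)).Nonempty →
      WB A (B.filter (fun f => f u = c)) D) : WB A B D := by
  intro g hg
  have hc : (0 : ℝ) < B.card := by exact_mod_cast Finset.card_pos.2 hB
  have hcard : ∑ c : C, ((B.filter (fun f => f u = c)).card : ℝ) = B.card := by
    have := Finset.card_eq_sum_card_fiberwise (f := fun f : V → C => f u) (s := B)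
      (t := (Finset.univ : Finset C)) (fun f _ => Finset.mem_coe.2 (Finset.mem_univ _))
    rw [this]
    push_cast
    rfl
  have hsum : ∑ c : C, ((B.filter (fun f => f u = c)).card : ℝ) *
      ev (B.filter (fun f => f u = c)) g = (B.card : ℝ) * ev B g := by
    rw [card_mul_ev]
    simp_rw [card_mul_ev]
    exact Finset.sum_fiberwise_of_maps_to (s := B) (t := (Finset.univ : Finset C))
      (g := fun f : V → C => f u) (fun f _ => Finset.mem_univ _) g
  have key : ∑ c : C, ((B.filter (fun f => f u = c)).card : ℝ) *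
      (ev A g - ev (B.filter (fun f => f u = c)) g) ≤
      ∑ c : C, ((B.filter (fun f => f u = c)).card : ℝ) * D := by
    apply Finset.sum_le_sum
    intro c _
    rcases Finset.eq_empty_or_nonempty (B.filter (fun f => f u = c)) with h0 | h0
    · rw [h0]; simp
    · exact mul_le_mul_of_nonneg_left (h c h0 g hg) (Nat.cast_nonneg _)
  rw [← Finset.sum_mul, hcard] at key
  simp_rw [mul_sub] at key
  rw [Finset.sum_sub_distrib, ← Finset.sum_mul, hcard, hsum] at key
  have : (B.card : ℝ) * (ev A g - ev B g) ≤ (B.card : ℝ) * D := by linarith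
  exact le_of_mul_le_mul_left this hc

/-- Total influence from the Wasserstein bound. Proof: `h f = ∑ u ∈ U, 1[f u ∈ P u]`, `P u` the
colours with `ev A 1[f u = c] ≥ ev B 1[f u = c]`; `h` is `Lip`; and
`∑ c |x c - y c| = 2 ∑ c (x c - y c)^+` because `∑ x = ∑ y = 1`. -/
theorem infl_of_wb (A B : Finset (V → C)) (U : Finset V) (D : ℝ) (hA : A.Nonempty)
    (hB : B.Nonempty) (h : WB A B D) :
    ∑ u ∈ U, ∑ c, |ev A (fun f => if f u = c then (1 : ℝ) else 0) -
      ev B (fun f => if f u = c then (1 : ℝ) else 0)| ≤ 2 * D := by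
  set x : V → C → ℝ := fun u c => ev A (fun f => if f u = c then (1 : ℝ) else 0) with hx
  set y : V → C → ℝ := fun u c => ev B (fun f => if f u = c then (1 : ℝ) else 0) with hy
  set P : V → Finset C := fun u => Finset.univ.filter (fun c => y u c ≤ x u c) with hP
  set g : (V → C) → ℝ := fun f => ∑ u ∈ U, if f u ∈ P u then (1 : ℝ) else 0 with hg
  have hone : ∀ (A : Finset (V → C)), A.Nonempty → ∀ u : V,
      ∑ c, ev A (fun f => if f u = c then (1 : ℝ) else 0) = 1 := by
    intro A hA u
    have hc : (A.card : ℝ) ≠ 0 := by exact_mod_cast (Finset.card_pos.2 hA).ne'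
    unfold ev
    rw [← Finset.sum_div, Finset.sum_comm]
    simp only [Finset.sum_ite_eq, Finset.mem_univ, if_true, Finset.sum_const, nsmul_eq_mul,
      mul_one]
    exact div_self hc
  have hev : ∀ (A : Finset (V → C)), ev A g =
      ∑ u ∈ U, ∑ c ∈ P u, ev A (fun f => if f u = c then (1 : ℝ) else 0) := by
    intro A
    unfold ev
    simp_rw [← Finset.sum_div]
    congr 1
    rw [hg]
    rw [Finset.sum_comm]
    refine Finset.sum_congr rfl fun u _ => ?_
    rw [Finset.sum_comm]
    refine Finset.sum_congr rfl fun f _ => ?_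
    rw [Finset.sum_ite_eq]
  have hL : Lip g := by
    intro f f' w hf
    rw [hg]
    simp only
    rw [← Finset.sum_sub_distrib]
    have h1 : ∀ u ∈ U, ((if f u ∈ P u then (1 : ℝ) else 0) - if f' u ∈ P u then (1 : ℝ) else 0) ≤
        if u = w then 1 else 0 := by
      intro u _
      by_cases hu : u = w
      · rw [if_pos hu]
        split_ifs <;> norm_num
      · rw [if_neg hu, hf u hu, sub_self]
    refine (Finset.sum_le_sum h1).trans ?_
    rw [Finset.sum_ite_eq']
    split_ifs <;> norm_num
  have hmain := h g hL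
  rw [hev A, hev B, ← Finset.sum_sub_distrib] at hmain
  have h2 : ∀ u ∈ U, ∑ c, |x u c - y u c| =
      2 * (∑ c ∈ P u, x u c - ∑ c ∈ P u, y u c) := by
    intro u _
    have hx1 : ∑ c, x u c = 1 := hone A hA u
    have hy1 : ∑ c, y u c = 1 := hone B hB u
    rw [← Finset.sum_sub_distrib]
    have hsplit := Finset.sum_filter_add_sum_filter_not (Finset.univ : Finset C)
      (fun c => y u c ≤ x u c) (fun c => x u c - y u c)
    have habs := Finset.sum_filter_add_sum_filter_not (Finset.univ : Finset C)
      (fun c => y u c ≤ x u c) (fun c => |x u c - y u c|)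
    have ha : ∑ c ∈ Finset.univ.filter (fun c => y u c ≤ x u c), |x u c - y u c| =
        ∑ c ∈ Finset.univ.filter (fun c => y u c ≤ x u c), (x u c - y u c) := by
      refine Finset.sum_congr rfl fun c hc => ?_
      rw [abs_of_nonneg]
      have := (Finset.mem_filter.1 hc).2
      linarith
    have hb : ∑ c ∈ Finset.univ.filter (fun c => ¬ y u c ≤ x u c), |x u c - y u c| =
        - ∑ c ∈ Finset.univ.filter (fun c => ¬ y u c ≤ x u c), (x u c - y u c) := by
      rw [← Finset.sum_neg_distrib]
      refine Finset.sum_congr rfl fun c hc => ?_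
      rw [abs_of_nonpos]
      have := (Finset.mem_filter.1 hc).2
      linarith
    have htot : ∑ c, (x u c - y u c) = 0 := by
      rw [Finset.sum_sub_distrib, hx1, hy1, sub_self]
    rw [ha, hb] at habs
    rw [htot] at hsplit
    show ∑ c, |x u c - y u c| = 2 * ∑ c ∈ Finset.univ.filter (fun c => y u c ≤ x u c),
      (x u c - y u c)
    linarith
  rw [Finset.sum_congr rfl h2, ← Finset.mul_sum]
  linarith

end Pool.Agent.KempeWas
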