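import Pool.Agent.Lib.MP_26a019_lc.Mix.MDefs

set_option autoImplicit false

/-!
# Definitions for the two-step Wasserstein recursion on list colourings

The Wasserstein distance (Hamming distance on configurations) is used in its dual form: `WB A B D`
says that the mean over `A` minus the mean over `B` of every function which changes by at most
one when one coordinate is changed is at most `D`. No couplings are needed.

`r` is the slack: `q = Δ + r`.
-/

open Finset Classical

namespace Pool.Agent.KempeWas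

open Pool.Agent.Kempe Pool.Agent.KempeMix

variable {V C : Type} [Fintype V] [Fintype C]

/-- changing one coordinate changes `h` by at most one -/
def Lip (h : (V → C) → ℝ) : Prop :=
  ∀ (f f' : V → C) (w : V), (∀ u, u ≠ w → f u = f' u) → h f - h f' ≤ 1

/-- the (dual) Wasserstein distance of the uniform laws on `A` and `B` is at most `D` -/
def WB (A B : Finset (V → C)) (D : ℝ) : Prop :=
  ∀ h : (V → C) → ℝ, Lip h → ev A h - ev B h ≤ D

/-- proper list colourings of the graph induced on `U`, equal to `p` outside `U` -/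
noncomputable def LC (G : SimpleGraph V) (U : Finset V) (L : V → Finset C) (p : V → C) :
    Finset (V → C) :=
  univ.filter (fun f => (∀ u ∈ U, f u ∈ L u) ∧ (∀ u ∈ U, ∀ w ∈ U, G.Adj u w → f u ≠ f w) ∧
    ∀ u, u ∉ U → f u = p u)

/-- neighbours of `v` in `U` -/
noncomputable def nb (G : SimpleGraph V) (U : Finset V) (v : V) : Finset V :=
  U.filter (fun u => G.Adj v u)

/-- the colour `c` is removed from the lists of the vertices of `J` -/
noncomputable def rml (L : V → Finset C) (J : Finset V) (c : C) : V → Finset C :=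
  fun v => if v ∈ J then (L v).erase c else L v

/-- degree at most `Δ - i`, list size at least `r + degree + i` -/
def Sl (G : SimpleGraph V) (U : Finset V) (L : V → Finset C) (Δ r i : ℕ) (v : V) : Prop :=
  (nb G U v).card + i ≤ Δ ∧ r + (nb G U v).card + i ≤ (L v).card

/-- the vertices of `J` have one unit of extra slack -/
def Ins (G : SimpleGraph V) (U : Finset V) (L : V → Finset C) (Δ r : ℕ) (J : Finset V) : Prop :=
  J ⊆ U ∧ (∀ v ∈ U, Sl G U L Δ r 0 v) ∧ ∀ v ∈ J, Sl G U L Δ r 1 v

/-- uniform bound `M` for all pendant instances with at most `n` vertices -/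
def WP (G : SimpleGraph V) (C : Type) [Fintype C] (Δ r n : ℕ) (M : ℝ) : Prop :=
  ∀ (U : Finset V) (L : V → Finset C) (p : V → C) (w : V) (x y : C), U.card ≤ n →
    Ins G U L Δ r {w} → WB (LC G U (rml L {w} x) p) (LC G U (rml L {w} y) p) M

/-- probability that no vertex of `J` has the colour `z` -/
noncomputable def QQ (G : SimpleGraph V) (U : Finset V) (L : V → Finset C) (p : V → C)
    (J : Finset V) (z : C) : ℝ :=
  ((LC G U (rml L J z) p).card : ℝ) / ((LC G U L p).card : ℝ)

/-- expected number of vertices of `J` with the colour `z` -/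
noncomputable def nn (G : SimpleGraph V) (U : Finset V) (L : V → Finset C) (p : V → C)
    (J : Finset V) (z : C) : ℝ :=
  ev (LC G U L p) (fun f => ((J.filter (fun v => f v = z)).card : ℝ))

/-- weights of the recursion: `x` is the colour with the larger `Q`, `Qy` is `Q y` or `0` -/
noncomputable def rho {C : Type} (T : Finset C) (Q : C → ℝ) (x y : C) (z : C) : ℝ :=
  if z = y then Q y / (∑ c ∈ T, Q c - Q x) else
    Q z * (Q x - (if y ∈ T then Q y else 0)) /
      ((∑ c ∈ T, Q c - Q x) * (∑ c ∈ T, Q c - (if y ∈ T then Q y else 0)))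

/-- `R` is a removal cost compatible with the probability `Q` and the mean `n` -/
def Cost (k r : ℕ) (Q n R : ℝ) : Prop :=
  0 < Q ∧ Q ≤ 1 ∧ 1 - Q ≤ n ∧ 0 ≤ R ∧ R ≤ n ∧
    ∃ β : Fin k → ℝ, (∀ i, 0 ≤ β i ∧ β i ≤ 1 / ((r : ℝ) + 1)) ∧ Q = ∏ i, (1 - β i) ∧ R ≤ ∑ i, β i

/-- the contraction constant of the recursion is at most `κ` -/
def Kap (Δ r : ℕ) (κ : ℝ) : Prop :=
  ∀ (C : Type) (T : Finset C) (x y : C) (k : ℕ) (Q n R : C → ℝ), x ∈ T → x ≠ y → k + 1 ≤ Δ →
    r + k + 1 ≤ T.card → (∀ z ∈ T, Cost k r (Q z) (n z) (R z)) → ∑ z ∈ T, n z ≤ k →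
    (y ∈ T → Q y ≤ Q x) →
    ∑ z ∈ T.erase x, rho T Q x y z * min (k : ℝ) (((Δ : ℝ) - 1) * (R z + R x)) ≤ κ

end Pool.Agent.KempeWas
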