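import Pool.Agent.Lib.MP_26a019_lc.Was.WList
import Pool.Agent.Lib.MP_26a019_lc.Was.WBasic

set_option autoImplicit false

open Finset Classical

namespace Pool.Agent.KempeWas

open Pool.Agent.Kempe Pool.Agent.KempeMix

variable {V C : Type} [Fintype V] [Fintype C]

namespace WIns

theorem mem_nb (G : SimpleGraph V) (U : Finset V) (v u : V) :
    u ∈ nb G U v ↔ u ∈ U ∧ G.Adj v u := by
  simp [nb]

theorem nb_erase_card_of_adj (G : SimpleGraph V) (U : Finset V) (u v : V) (hu : u ∈ U)
    (ha : G.Adj v u) : (nb G (U.erase u) v).card + 1 = (nb G U v).card := by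
  have h1 : nb G (U.erase u) v = (nb G U v).erase u := by
    ext w
    simp only [mem_nb, mem_erase]
    tauto
  rw [h1]
  exact Finset.card_erase_add_one ((mem_nb G U v u).2 ⟨hu, ha⟩)

theorem nb_erase_le (G : SimpleGraph V) (U : Finset V) (u v : V) :
    (nb G (U.erase u) v).card ≤ (nb G U v).card := by
  apply Finset.card_le_card
  intro w hw
  rw [mem_nb] at hw ⊢
  exact ⟨(Finset.mem_erase.1 hw.1).2, hw.2⟩

theorem nb_erase_eq (G : SimpleGraph V) (U : Finset V) (u v : V)
    (ha : ¬ G.Adj v u) : nb G (U.erase u) v = nb G U v := by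
  ext w
  simp only [mem_nb, mem_erase]
  constructor
  · rintro ⟨⟨_, h1⟩, h2⟩
    exact ⟨h1, h2⟩
  · rintro ⟨h1, h2⟩
    refine ⟨⟨?_, h1⟩, h2⟩
    rintro rfl
    exact ha h2

theorem sl_pin (G : SimpleGraph V) (U : Finset V) (L : V → Finset C) (Δ r i : ℕ) (u v : V)
    (hu : u ∈ U) (hv : v ∈ U) (c : C) (h : Sl G U L Δ r i v) :
    Sl G (U.erase u) (rml L (nb G U u) c) Δ r i v := by
  obtain ⟨h1, h2⟩ := h
  by_cases ha : G.Adj v u
  · have e := nb_erase_card_of_adj G U u v hu ha
    have hm : v ∈ nb G U u := (mem_nb G U u v).2 ⟨hv, ha.symm⟩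
    refine ⟨by omega, ?_⟩
    have h3 : (L v).card - 1 ≤ ((L v).erase c).card := Finset.pred_card_le_card_erase
    simp only [rml, hm, if_true]
    omega
  · have e := nb_erase_eq G U u v ha
    have hm : v ∉ nb G U u := by
      rw [mem_nb]
      rintro ⟨_, h3⟩
      exact ha h3.symm
    unfold Sl
    simp only [rml, hm, if_false]
    rw [e]
    exact ⟨h1, h2⟩

end WIns

open WIns

/-- Slack after removing the vertex `u` (its neighbours lose the colour `c`): the vertices of `J`
keep their extra slack. -/
theorem ins_pin (G : SimpleGraph V) (U : Finset V) (L : V → Finset C) (Δ r : ℕ) (J : Finset V)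
    (h : Ins G U L Δ r J) (u : V) (hu : u ∈ U) (c : C) :
    Ins G (U.erase u) (rml L (nb G U u) c) Δ r (J.erase u) := by
  obtain ⟨h1, h2, h3⟩ := h
  refine ⟨Finset.erase_subset_erase u h1, ?_, ?_⟩
  · intro v hv
    exact sl_pin G U L Δ r 0 u v hu (Finset.mem_of_mem_erase hv) c (h2 v (Finset.mem_of_mem_erase hv))
  · intro v hv
    have hv' := Finset.mem_of_mem_erase hv
    exact sl_pin G U L Δ r 1 u v hu (h1 hv') c (h3 v hv')

/-- Slack after removing the vertex `u` without change of the lists: the neighbours get extra
slack. -/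
theorem ins_del (G : SimpleGraph V) (U : Finset V) (L : V → Finset C) (Δ r : ℕ) (J : Finset V)
    (h : Ins G U L Δ r J) (u : V) (hu : u ∈ U) :
    Ins G (U.erase u) L Δ r (nb G U u) := by
  obtain ⟨h1, h2, h3⟩ := h
  refine ⟨?_, ?_, ?_⟩
  · intro v hv
    rw [mem_nb] at hv
    rw [Finset.mem_erase]
    exact ⟨fun e => G.loopless.irrefl u (e ▸ hv.2), hv.1⟩
  · intro v hv
    obtain ⟨a, b⟩ := h2 v (Finset.mem_of_mem_erase hv)
    have := nb_erase_le G U u v
    exact ⟨by omega, by omega⟩
  · intro v hv
    rw [mem_nb] at hv
    obtain ⟨a, b⟩ := h2 v hv.1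
    have := nb_erase_card_of_adj G U u v hu hv.2.symm
    exact ⟨by omega, by omega⟩

/-- Slack after forbidding one colour at some vertices of `J`. -/
theorem ins_rml (G : SimpleGraph V) (U : Finset V) (L : V → Finset C) (Δ r : ℕ) (J J' : Finset V)
    (h : Ins G U L Δ r J) (hJ : J' ⊆ J) (z : C) :
    Ins G U (rml L J' z) Δ r (J \ J') := by
  obtain ⟨h1, h2, h3⟩ := h
  refine ⟨Finset.sdiff_subset.trans h1, ?_, ?_⟩
  · intro v hv
    by_cases hm : v ∈ J'
    · obtain ⟨a, b⟩ := h3 v (hJ hm)
      have h4 : (L v).card - 1 ≤ ((L v).erase z).card := Finset.pred_card_le_card_erase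
      refine ⟨by omega, ?_⟩
      simp only [rml, hm, if_true]
      omega
    · unfold Sl
      simp only [rml, hm, if_false]
      exact h2 v hv
  · intro v hv
    rw [Finset.mem_sdiff] at hv
    unfold Sl
    simp only [rml, hv.2, if_false]
    exact h3 v hv.1

theorem ins_mono (G : SimpleGraph V) (U : Finset V) (L : V → Finset C) (Δ r : ℕ) (J J' : Finset V)
    (h : Ins G U L Δ r J) (hJ : J' ⊆ J) : Ins G U L Δ r J' :=
  ⟨hJ.trans h.1, h.2.1, fun v hv => h.2.2 v (hJ hv)⟩

/-- Nonempty for every instance (`r ≥ 1`). -/
theorem ins_nonempty (G : SimpleGraph V) (U : Finset V) (L : V → Finset C) (Δ r : ℕ) (J : Finset V)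
    (hr : 1 ≤ r) (h : Ins G U L Δ r J) (p : V → C) : (LC G U L p).Nonempty := by
  apply lc_nonempty
  intro v hv
  obtain ⟨_, b⟩ := h.2.1 v hv
  omega

/-- Changing the value outside. Bijection `f ↦ Function.update f u c`. -/
theorem wb_shift (G : SimpleGraph V) (U : Finset V) (L : V → Finset C) (p : V → C) (u : V)
    (hu : u ∉ U) (z c : C) :
    WB (LC G U L (Function.update p u z)) (LC G U L (Function.update p u c)) 1 := by
  intro h hh
  have himg : LC G U L (Function.update p u c)
      = (LC G U L (Function.update p u z)).image (fun f => Function.update f u c) := by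
    ext g
    simp only [LC, mem_filter, mem_univ, true_and, mem_image]
    constructor
    · rintro ⟨g1, g2, g3⟩
      have gu : g u = c := by rw [g3 u hu, Function.update_self]
      refine ⟨Function.update g u z, ⟨?_, ?_, ?_⟩, ?_⟩
      · intro w hw
        have : w ≠ u := fun e => hu (e ▸ hw)
        rw [Function.update_of_ne this]
        exact g1 w hw
      · intro w hw w' hw' ha
        have e1 : w ≠ u := fun e => hu (e ▸ hw)
        have e2 : w' ≠ u := fun e => hu (e ▸ hw')
        rw [Function.update_of_ne e1, Function.update_of_ne e2]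
        exact g2 w hw w' hw' ha
      · intro w hw
        by_cases e : w = u
        · subst e; simp
        · rw [Function.update_of_ne e, Function.update_of_ne e, g3 w hw, Function.update_of_ne e]
      · rw [Function.update_idem, ← gu, Function.update_eq_self]
    · rintro ⟨f, ⟨f1, f2, f3⟩, rfl⟩
      refine ⟨?_, ?_, ?_⟩
      · intro w hw
        have : w ≠ u := fun e => hu (e ▸ hw)
        rw [Function.update_of_ne this]
        exact f1 w hw
      · intro w hw w' hw' ha
        have e1 : w ≠ u := fun e => hu (e ▸ hw)
        have e2 : w' ≠ u := fun e => hu (e ▸ hw')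
        rw [Function.update_of_ne e1, Function.update_of_ne e2]
        exact f2 w hw w' hw' ha
      · intro w hw
        by_cases e : w = u
        · subst e; simp
        · rw [Function.update_of_ne e, Function.update_of_ne e, f3 w hw, Function.update_of_ne e]
  have hinj : Set.InjOn (fun f : V → C => Function.update f u c)
      (LC G U L (Function.update p u z) : Set (V → C)) := by
    intro f hf g hg hfg
    simp only [LC, coe_filter, mem_univ, true_and, Set.mem_ofPred_eq] at hf hg
    funext w
    by_cases e : w = u
    · subst e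
      rw [hf.2.2 w hu, hg.2.2 w hu]
    · have := congrFun hfg w
      simpa [Function.update_of_ne e] using this
  set A := LC G U L (Function.update p u z) with hA
  unfold ev
  rw [himg, Finset.sum_image hinj, Finset.card_image_of_injOn hinj, ← sub_div, ← Finset.sum_sub_distrib]
  rcases A.eq_empty_or_nonempty with he | hne
  · rw [he]; simp
  · have hc : (0 : ℝ) < (A.card : ℝ) := by exact_mod_cast hne.card_pos
    rw [div_le_one hc]
    calc ∑ f ∈ A, (h f - h (Function.update f u c)) ≤ ∑ f ∈ A, (1 : ℝ) := by
          apply Finset.sum_le_sum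
          intro f _
          apply hh f _ u
          intro w hw
          rw [Function.update_of_ne hw]
      _ = (A.card : ℝ) := by simp

/-- At a vertex with extra slack each colour has probability at most `1 / (r + 1)`. Proof: for
each `f` with `f v = z` there are at least `r + 1` colours `c` (in `L v`, not used on the
neighbours) with `Function.update f v c ∈ LC`. -/
theorem prob_le (G : SimpleGraph V) (U : Finset V) (L : V → Finset C) (p : V → C) (Δ r : ℕ) (v : V)
    (hv : v ∈ U) (h : Sl G U L Δ r 1 v) (z : C) :
    (((LC G U L p).filter (fun f => f v = z)).card : ℝ) * ((r : ℝ) + 1) ≤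
      ((LC G U L p).card : ℝ) := by
  set B := (LC G U L p).filter (fun f => f v = z) with hB
  let S : Finset (Σ _ : V → C, C) := B.sigma (fun f => (L v) \ (nb G U v).image f)
  have hcard : B.card * (r + 1) ≤ S.card := by
    rw [Finset.card_sigma]
    rw [← smul_eq_mul]
    apply Finset.card_nsmul_le_sum
    intro f _
    have h1 := Finset.le_card_sdiff ((nb G U v).image f) (L v)
    have h2 : ((nb G U v).image f).card ≤ (nb G U v).card := Finset.card_image_le
    obtain ⟨_, h3⟩ := h
    omega
  have hle : S.card ≤ (LC G U L p).card := by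
    apply Finset.card_le_card_of_injOn (fun q => Function.update q.1 v q.2)
    · rintro ⟨f, c⟩ hq
      simp only [S, coe_sigma, Set.mem_sigma_iff, mem_coe, mem_sdiff, mem_image, not_exists,
        not_and, hB, LC, mem_filter, mem_univ, true_and] at hq
      obtain ⟨⟨⟨f1, f2, f3⟩, f4⟩, c1, c2⟩ := hq
      simp only [LC, coe_filter, mem_univ, true_and, Set.mem_ofPred_eq]
      refine ⟨?_, ?_, ?_⟩
      · intro w hw
        by_cases e : w = v
        · subst e; rw [Function.update_self]; exact c1
        · rw [Function.update_of_ne e]; exact f1 w hw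
      · intro w hw w' hw' ha
        by_cases e : w = v
        · subst e
          have e' : w' ≠ w := ha.ne'
          rw [Function.update_self, Function.update_of_ne e']
          exact fun hc => c2 w' ((mem_nb G U w w').2 ⟨hw', ha⟩) hc.symm
        · by_cases e' : w' = v
          · subst e'
            rw [Function.update_self, Function.update_of_ne e]
            exact fun hc => c2 w ((mem_nb G U w' w).2 ⟨hw, ha.symm⟩) hc
          · rw [Function.update_of_ne e, Function.update_of_ne e']
            exact f2 w hw w' hw' ha
      · intro w hw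
        have e : w ≠ v := fun e => hw (e ▸ hv)
        rw [Function.update_of_ne e]
        exact f3 w hw
    · rintro ⟨f, c⟩ hq ⟨g, d⟩ hq' he
      simp only [S, coe_sigma, Set.mem_sigma_iff, mem_coe, hB, mem_filter] at hq hq'
      have e1 : c = d := by
        have := congrFun he v
        simpa using this
      have e2 : f = g := by
        funext w
        by_cases e : w = v
        · subst e; rw [hq.1.2, hq'.1.2]
        · have := congrFun he w
          simpa [Function.update_of_ne e] using this
      subst e1; subst e2; rfl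
  have : B.card * (r + 1) ≤ (LC G U L p).card := hcard.trans hle
  exact_mod_cast this

end Pool.Agent.KempeWas
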