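import Pool.Agent.Lib.MP_26a019_lc.Was.WDefs

set_option autoImplicit false

open Finset Classical

namespace Pool.Agent.KempeWas

open Pool.Agent.Kempe Pool.Agent.KempeMix

variable {V C : Type} [Fintype V] [Fintype C]

private theorem wlist_mem (G : SimpleGraph V) (U : Finset V) (L : V → Finset C) (p f : V → C) :
    f ∈ LC G U L p ↔ (∀ u ∈ U, f u ∈ L u) ∧ (∀ u ∈ U, ∀ w ∈ U, G.Adj u w → f u ≠ f w) ∧
      ∀ u, u ∉ U → f u = p u := by
  unfold LC
  rw [Finset.mem_filter]
  exact ⟨fun h => h.2, fun h => ⟨Finset.mem_univ _, h⟩⟩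

private theorem wlist_nb (G : SimpleGraph V) (U : Finset V) (w u : V) :
    u ∈ nb G U w ↔ u ∈ U ∧ G.Adj w u := by
  unfold nb
  rw [Finset.mem_filter]

private theorem wlist_rml (L : V → Finset C) (J : Finset V) (z : C) (u : V) (c : C) :
    c ∈ rml L J z u ↔ c ∈ L u ∧ (u ∈ J → c ≠ z) := by
  unfold rml
  by_cases h : u ∈ J
  · rw [if_pos h, Finset.mem_erase]
    tauto
  · rw [if_neg h]
    tauto

/-- Only the lists on `U` matter. -/
theorem lc_congr (G : SimpleGraph V) (U : Finset V) (L L' : V → Finset C) (p : V → C)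
    (h : ∀ u ∈ U, L u = L' u) : LC G U L p = LC G U L' p := by
  ext f
  rw [wlist_mem, wlist_mem]
  constructor
  · rintro ⟨h1, h2, h3⟩
    exact ⟨fun u hu => h u hu ▸ h1 u hu, h2, h3⟩
  · rintro ⟨h1, h2, h3⟩
    exact ⟨fun u hu => (h u hu).symm ▸ h1 u hu, h2, h3⟩

theorem lc_nonempty (G : SimpleGraph V) (U : Finset V) (L : V → Finset C) (p : V → C)
    (h : ∀ v ∈ U, (nb G U v).card < (L v).card) : (LC G U L p).Nonempty := by
  induction hn : U.card generalizing U with
  | zero =>
    rw [Finset.card_eq_zero] at hn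
    refine ⟨p, (wlist_mem G U L p p).mpr ⟨?_, ?_, fun u _ => rfl⟩⟩
    · intro u hu
      rw [hn] at hu
      exact absurd hu (Finset.notMem_empty u)
    · intro u hu
      rw [hn] at hu
      exact absurd hu (Finset.notMem_empty u)
  | succ n ih =>
    obtain ⟨u, hu⟩ : U.Nonempty := Finset.card_pos.mp (by omega)
    have hsub : ∀ v, (nb G (U.erase u) v).card ≤ (nb G U v).card := by
      intro v
      apply Finset.card_le_card
      intro w hw
      rw [wlist_nb] at hw ⊢
      exact ⟨Finset.mem_of_mem_erase hw.1, hw.2⟩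
    obtain ⟨f, hf⟩ := ih (U.erase u)
      (fun v hv => lt_of_le_of_lt (hsub v) (h v (Finset.mem_of_mem_erase hv)))
      (by rw [Finset.card_erase_of_mem hu]; omega)
    rw [wlist_mem] at hf
    obtain ⟨hf1, hf2, hf3⟩ := hf
    obtain ⟨c, hc, hc'⟩ : ∃ c ∈ L u, c ∉ (nb G U u).image f := by
      apply Finset.exists_mem_notMem_of_card_lt_card
      exact lt_of_le_of_lt Finset.card_image_le (h u hu)
    have hne : ∀ v, v ∈ U → G.Adj u v → f v ≠ c := by
      intro v hv huv hfv
      exact hc' (Finset.mem_image.mpr ⟨v, (wlist_nb G U u v).mpr ⟨hv, huv⟩, hfv⟩)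
    refine ⟨Function.update f u c, (wlist_mem G U L p _).mpr ⟨?_, ?_, ?_⟩⟩
    · intro v hv
      by_cases hvu : v = u
      · rw [hvu, Function.update_self]
        exact hc
      · rw [Function.update_of_ne hvu]
        exact hf1 v (Finset.mem_erase.mpr ⟨hvu, hv⟩)
    · intro v hv w hw hvw
      by_cases hvu : v = u
      · have hwu : w ≠ u := fun h' => hvw.ne (hvu.trans h'.symm)
        rw [hvu, Function.update_self, Function.update_of_ne hwu]
        rw [hvu] at hvw
        exact (hne w hw hvw).symm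
      · by_cases hwu : w = u
        · rw [hwu, Function.update_self, Function.update_of_ne hvu]
          rw [hwu] at hvw
          exact hne v hv hvw.symm
        · rw [Function.update_of_ne hvu, Function.update_of_ne hwu]
          exact hf2 v (Finset.mem_erase.mpr ⟨hvu, hv⟩) w (Finset.mem_erase.mpr ⟨hwu, hw⟩) hvw
    · intro v hv
      have hvu : v ≠ u := fun h' => hv (h' ▸ hu)
      rw [Function.update_of_ne hvu]
      exact hf3 v (fun h' => hv (Finset.mem_of_mem_erase h'))

/-- Pinning `u` to the colour `c`. -/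
theorem lc_filter_eq (G : SimpleGraph V) (U : Finset V) (L : V → Finset C) (p : V → C) (u : V)
    (hu : u ∈ U) (c : C) (hc : c ∈ L u) :
    (LC G U L p).filter (fun f => f u = c) =
      LC G (U.erase u) (rml L (nb G U u) c) (Function.update p u c) := by
  ext f
  rw [Finset.mem_filter, wlist_mem, wlist_mem]
  constructor
  · rintro ⟨⟨h1, h2, h3⟩, hfu⟩
    refine ⟨?_, ?_, ?_⟩
    · intro v hv
      rw [Finset.mem_erase] at hv
      rw [wlist_rml]
      refine ⟨h1 v hv.2, fun hvn => ?_⟩
      rw [wlist_nb] at hvn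
      rw [← hfu]
      exact (h2 u hu v hv.2 hvn.2).symm
    · intro v hv w hw hvw
      exact h2 v (Finset.mem_of_mem_erase hv) w (Finset.mem_of_mem_erase hw) hvw
    · intro v hv
      by_cases hvu : v = u
      · rw [hvu, Function.update_self, hfu]
      · rw [Function.update_of_ne hvu]
        exact h3 v (fun h' => hv (Finset.mem_erase.mpr ⟨hvu, h'⟩))
  · rintro ⟨h1, h2, h3⟩
    have hfu : f u = c := by
      rw [h3 u (Finset.notMem_erase u U), Function.update_self]
    refine ⟨⟨?_, ?_, ?_⟩, hfu⟩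
    · intro v hv
      by_cases hvu : v = u
      · rw [hvu, hfu]
        exact hc
      · exact ((wlist_rml _ _ _ _ _).mp (h1 v (Finset.mem_erase.mpr ⟨hvu, hv⟩))).1
    · intro v hv w hw hvw
      by_cases hvu : v = u
      · have hwu : w ≠ u := fun h' => hvw.ne (hvu.trans h'.symm)
        rw [hvu] at hvw
        rw [hvu, hfu]
        exact (((wlist_rml _ _ _ _ _).mp (h1 w (Finset.mem_erase.mpr ⟨hwu, hw⟩))).2
          ((wlist_nb G U u w).mpr ⟨hw, hvw⟩)).symm
      · by_cases hwu : w = u
        · rw [hwu] at hvw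
          rw [hwu, hfu]
          exact ((wlist_rml _ _ _ _ _).mp (h1 v (Finset.mem_erase.mpr ⟨hvu, hv⟩))).2
            ((wlist_nb G U u v).mpr ⟨hv, hvw.symm⟩)
        · exact h2 v (Finset.mem_erase.mpr ⟨hvu, hv⟩) w (Finset.mem_erase.mpr ⟨hwu, hw⟩) hvw
    · intro v hv
      have hvu : v ≠ u := fun h' => hv (h' ▸ hu)
      have h4 := h3 v (fun h' => hv (Finset.mem_of_mem_erase h'))
      rw [Function.update_of_ne hvu] at h4
      exact h4

/-- Forbidding the colour `z` on `J`. -/
theorem lc_filter_avoid (G : SimpleGraph V) (U : Finset V) (L : V → Finset C) (p : V → C)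
    (J : Finset V) (hJ : J ⊆ U) (z : C) :
    (LC G U L p).filter (fun f => ∀ v ∈ J, f v ≠ z) = LC G U (rml L J z) p := by
  ext f
  rw [Finset.mem_filter, wlist_mem, wlist_mem]
  constructor
  · rintro ⟨⟨h1, h2, h3⟩, h4⟩
    exact ⟨fun u hu => (wlist_rml _ _ _ _ _).mpr ⟨h1 u hu, fun huJ => h4 u huJ⟩, h2, h3⟩
  · rintro ⟨h1, h2, h3⟩
    exact ⟨⟨fun u hu => ((wlist_rml _ _ _ _ _).mp (h1 u hu)).1, h2, h3⟩,
      fun v hv => ((wlist_rml _ _ _ _ _).mp (h1 v (hJ hv))).2 hv⟩

theorem lc_filter_ne (G : SimpleGraph V) (U : Finset V) (L : V → Finset C) (p : V → C) (u : V)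
    (hu : u ∈ U) (z : C) :
    (LC G U L p).filter (fun f => ¬ f u = z) = LC G U (rml L {u} z) p := by
  rw [← lc_filter_avoid G U L p {u} (Finset.singleton_subset_iff.mpr hu) z]
  apply Finset.filter_congr
  intro f _
  constructor
  · intro h v hv
    rw [Finset.mem_singleton] at hv
    rw [hv]
    exact h
  · intro h
    exact h u (Finset.mem_singleton_self u)

theorem rml_insert (L : V → Finset C) (J : Finset V) (u : V) (hu : u ∉ J) (z : C) :
    rml L (insert u J) z = rml (rml L J z) {u} z := by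
  funext v
  ext c
  rw [wlist_rml, wlist_rml, wlist_rml, Finset.mem_insert, Finset.mem_singleton]
  tauto

theorem rml_comm (L : V → Finset C) (J J' : Finset V) (z z' : C) :
    rml (rml L J z) J' z' = rml (rml L J' z') J z := by
  funext v
  ext c
  rw [wlist_rml, wlist_rml, wlist_rml, wlist_rml]
  tauto

end Pool.Agent.KempeWas
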