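import Pool.Agent.Lib.MP_26a019_lc.Was.WIns

set_option autoImplicit false

open Finset Classical

namespace Pool.Agent.KempeWas

open Pool.Agent.Kempe Pool.Agent.KempeMix

variable {V C : Type} [Fintype V] [Fintype C]

theorem QQ_pos (G : SimpleGraph V) (Δ r : ℕ) (hr : 1 ≤ r) (U J : Finset V) (L : V → Finset C)
    (p : V → C) (h : Ins G U L Δ r J) (z : C) : 0 < QQ G U L p J z := by
  unfold QQ
  have h1 := (ins_nonempty G U L Δ r J hr h p).card_pos
  have h2 := (ins_nonempty G U _ Δ r _ hr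
    (ins_rml G U L Δ r J J h (Finset.Subset.refl J) z) p).card_pos
  have h1' : (0 : ℝ) < ((LC G U L p).card : ℝ) := by exact_mod_cast h1
  have h2' : (0 : ℝ) < ((LC G U (rml L J z) p).card : ℝ) := by exact_mod_cast h2
  exact div_pos h2' h1'

theorem QQ_le_one (G : SimpleGraph V) (U J : Finset V) (hJ : J ⊆ U) (L : V → Finset C)
    (p : V → C) (z : C) : QQ G U L p J z ≤ 1 := by
  unfold QQ
  rw [← lc_filter_avoid G U L p J hJ z]
  apply div_le_one_of_le₀ _ (Nat.cast_nonneg _)
  exact_mod_cast Finset.card_filter_le _ _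

theorem one_sub_QQ_le (G : SimpleGraph V) (U J : Finset V) (hJ : J ⊆ U) (L : V → Finset C)
    (p : V → C) (hne : (LC G U L p).Nonempty) (z : C) :
    1 - QQ G U L p J z ≤ nn G U L p J z := by
  unfold QQ nn ev
  rw [← lc_filter_avoid G U L p J hJ z]
  have h1' : (0 : ℝ) < ((LC G U L p).card : ℝ) := by exact_mod_cast hne.card_pos
  rw [sub_le_iff_le_add, ← add_div, le_div_iff₀ h1', one_mul]
  have h2 : ((LC G U L p).card : ℝ) = ∑ f ∈ LC G U L p, (1 : ℝ) := by simp
  have h3 : (((LC G U L p).filter (fun f => ∀ v ∈ J, f v ≠ z)).card : ℝ)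
      = ∑ f ∈ LC G U L p, (if ∀ v ∈ J, f v ≠ z then (1 : ℝ) else 0) := by
    rw [Finset.sum_boole]
  rw [h2, h3, ← Finset.sum_add_distrib]
  apply Finset.sum_le_sum
  intro f _
  by_cases h : ∀ v ∈ J, f v ≠ z
  · rw [if_pos h]
    have : (0 : ℝ) ≤ ((J.filter (fun v => f v = z)).card : ℝ) := Nat.cast_nonneg _
    linarith
  · rw [if_neg h, add_zero]
    push Not at h
    obtain ⟨v, hv, hfv⟩ := h
    have h4 : 0 < (J.filter (fun v => f v = z)).card :=
      Finset.card_pos.2 ⟨v, Finset.mem_filter.2 ⟨hv, hfv⟩⟩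
    exact_mod_cast h4

/-- Each vertex of `J` has one colour. -/
theorem sum_nn_le (G : SimpleGraph V) (U J : Finset V) (L : V → Finset C) (p : V → C)
    (T : Finset C) : ∑ z ∈ T, nn G U L p J z ≤ J.card := by
  unfold nn ev
  rw [← Finset.sum_div]
  rcases (LC G U L p).eq_empty_or_nonempty with h | h
  · rw [h]
    simp
  · have h1' : (0 : ℝ) < ((LC G U L p).card : ℝ) := by exact_mod_cast h.card_pos
    rw [div_le_iff₀ h1', Finset.sum_comm]
    have h2 : (J.card : ℝ) * ((LC G U L p).card : ℝ) = ∑ f ∈ LC G U L p, (J.card : ℝ) := by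
      rw [Finset.sum_const, nsmul_eq_mul, mul_comm]
    rw [h2]
    apply Finset.sum_le_sum
    intro f _
    have h3 : ∑ z ∈ T, (J.filter (fun v => f v = z)).card ≤ J.card := by
      rw [← Finset.card_biUnion]
      · apply Finset.card_le_card
        intro v hv
        rw [Finset.mem_biUnion] at hv
        obtain ⟨z, _, hz⟩ := hv
        exact (Finset.mem_filter.1 hz).1
      · intro z _ z' _ hzz
        rw [Function.onFun, Finset.disjoint_left]
        intro v hv hv'
        exact hzz ((Finset.mem_filter.1 hv).2.symm.trans (Finset.mem_filter.1 hv').2)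
    exact_mod_cast h3

end Pool.Agent.KempeWas
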