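import Pool.Agent.Lib.MP_26a019_lc.Was.WQ

set_option autoImplicit false

open Finset Classical

namespace Pool.Agent.KempeWas

open Pool.Agent.Kempe Pool.Agent.KempeMix

variable {V C : Type} [Fintype V] [Fintype C]

private theorem wrec_mem (G : SimpleGraph V) (U : Finset V) (L : V → Finset C) (p f : V → C) :
    f ∈ LC G U L p ↔ (∀ u ∈ U, f u ∈ L u) ∧ (∀ u ∈ U, ∀ w ∈ U, G.Adj u w → f u ≠ f w) ∧
      ∀ u, u ∉ U → f u = p u := by
  unfold LC
  rw [Finset.mem_filter]
  exact ⟨fun h => h.2, fun h => ⟨Finset.mem_univ _, h⟩⟩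

private theorem wrec_nb (G : SimpleGraph V) (U : Finset V) (w u : V) :
    u ∈ nb G U w ↔ u ∈ U ∧ G.Adj w u := by
  unfold nb
  rw [Finset.mem_filter]

private theorem wrec_rml (L : V → Finset C) (J : Finset V) (z : C) (u : V) (c : C) :
    c ∈ rml L J z u ↔ c ∈ L u ∧ (u ∈ J → c ≠ z) := by
  unfold rml
  by_cases h : u ∈ J
  · rw [if_pos h, Finset.mem_erase]
    tauto
  · rw [if_neg h]
    tauto

/-- Decomposition by the colour of `w`: the sum over the configurations with `f w` in the list
`L' w` is the sum over the colours `z ∈ L' w`. (`L'` equals `L` off `w`.) -/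
theorem sum_decomp (G : SimpleGraph V) (U : Finset V) (L : V → Finset C) (p : V → C) (w : V)
    (hw : w ∈ U) (h : (V → C) → ℝ) :
    ∑ f ∈ LC G U L p, h f =
      ∑ z ∈ L w, ∑ f ∈ LC G (U.erase w) (rml L (nb G U w) z) p, h (Function.update f w z) := by
  have h1 : ∀ f ∈ LC G U L p, f w ∈ L w := fun f hf =>
    ((wrec_mem G U L p f).mp hf).1 w hw
  rw [← Finset.sum_fiberwise_of_maps_to h1]
  refine Finset.sum_congr rfl (fun z hz => ?_)
  refine Finset.sum_nbij' (fun f => Function.update f w (p w)) (fun f => Function.update f w z)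
    ?_ ?_ ?_ ?_ ?_
  · intro f hf
    rw [Finset.mem_filter, wrec_mem] at hf
    obtain ⟨⟨hf1, hf2, hf3⟩, hfw⟩ := hf
    rw [wrec_mem]
    refine ⟨?_, ?_, ?_⟩
    · intro u hu
      rw [Finset.mem_erase] at hu
      rw [Function.update_of_ne hu.1, wrec_rml]
      refine ⟨hf1 u hu.2, fun hun => ?_⟩
      rw [wrec_nb] at hun
      rw [← hfw]
      exact (hf2 w hw u hu.2 hun.2).symm
    · intro u hu v hv huv
      rw [Finset.mem_erase] at hu hv
      rw [Function.update_of_ne hu.1, Function.update_of_ne hv.1]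
      exact hf2 u hu.2 v hv.2 huv
    · intro u hu
      by_cases huw : u = w
      · rw [huw, Function.update_self]
      · rw [Function.update_of_ne huw]
        apply hf3
        intro huU
        exact hu (Finset.mem_erase.mpr ⟨huw, huU⟩)
  · intro f hf
    rw [wrec_mem] at hf
    obtain ⟨hf1, hf2, hf3⟩ := hf
    rw [Finset.mem_filter, wrec_mem]
    refine ⟨⟨?_, ?_, ?_⟩, Function.update_self _ _ _⟩
    · intro u hu
      by_cases huw : u = w
      · rw [huw, Function.update_self]
        exact hz
      · rw [Function.update_of_ne huw]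
        exact ((wrec_rml _ _ _ _ _).mp (hf1 u (Finset.mem_erase.mpr ⟨huw, hu⟩))).1
    · intro u hu v hv huv
      by_cases huw : u = w
      · have hvw : v ≠ w := fun h => huv.ne (huw.trans h.symm)
        rw [huw, Function.update_self, Function.update_of_ne hvw]
        rw [huw] at huv
        have h2 := ((wrec_rml _ _ _ _ _).mp (hf1 v (Finset.mem_erase.mpr ⟨hvw, hv⟩))).2
          ((wrec_nb G U w v).mpr ⟨hv, huv⟩)
        exact h2.symm
      · by_cases hvw : v = w
        · rw [hvw, Function.update_self, Function.update_of_ne huw]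
          rw [hvw] at huv
          exact ((wrec_rml _ _ _ _ _).mp (hf1 u (Finset.mem_erase.mpr ⟨huw, hu⟩))).2
            ((wrec_nb G U w u).mpr ⟨hu, huv.symm⟩)
        · rw [Function.update_of_ne huw, Function.update_of_ne hvw]
          exact hf2 u (Finset.mem_erase.mpr ⟨huw, hu⟩) v (Finset.mem_erase.mpr ⟨hvw, hv⟩) huv
    · intro u hu
      have huw : u ≠ w := fun h => hu (h ▸ hw)
      rw [Function.update_of_ne huw]
      exact hf3 u (fun h => hu (Finset.mem_of_mem_erase h))
  · intro f hf
    rw [Finset.mem_filter] at hf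
    simp only [Function.update_idem]
    rw [← hf.2, Function.update_eq_self]
  · intro f hf
    rw [wrec_mem] at hf
    simp only [Function.update_idem]
    rw [← hf.2.2 w (Finset.notMem_erase w U), Function.update_eq_self]
  · intro f hf
    rw [Finset.mem_filter] at hf
    simp only [Function.update_idem]
    rw [← hf.2, Function.update_eq_self]

/-- THE RECURSION STEP. `H = U.erase w`, `N = nb G U w`, `A z = LC G H (rml L N z) p`,
`Q z = QQ G H L p N z = |A z| / |LC G H L p|`. If `x ∈ L w`, `Q y ≤ Q x` (if `y ∈ L w`) and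
`WB (A z) (A x) (X z)` for all `z`, then the pendant distance is at most
`∑ ρ z (1 + X z)`. Proof: `sum_decomp` for both lists;
`ev (LC G U (rml L {w} x) p) h = ∑_{z ∈ T, z ≠ x} Q z e z / (S - Q x)`, `e z = ev (A z) (h ∘ update)`;
the difference of the two means is `∑_{z ∈ T, z ≠ x} ρ z (e z - e x)` and
`e z - e x ≤ 1 + X z` since `h (update f w z) ≤ 1 + h (update f w x)`. -/
theorem rec_step (G : SimpleGraph V) (Δ r : ℕ) (hr : 1 ≤ r) (U : Finset V) (L : V → Finset C)
    (p : V → C) (w : V) (h : Ins G U L Δ r {w}) (x y : C) (hx : x ∈ L w) (hxy : x ≠ y)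
    (hQ : y ∈ L w → QQ G (U.erase w) L p (nb G U w) y ≤ QQ G (U.erase w) L p (nb G U w) x)
    (X : C → ℝ)
    (hX : ∀ z ∈ L w, WB (LC G (U.erase w) (rml L (nb G U w) z) p)
      (LC G (U.erase w) (rml L (nb G U w) x) p) (X z)) :
    WB (LC G U (rml L {w} x) p) (LC G U (rml L {w} y) p)
      (∑ z ∈ (L w).erase x, rho (L w) (QQ G (U.erase w) L p (nb G U w)) x y z * (1 + X z)) := by
  have hwU : w ∈ U := h.1 (Finset.mem_singleton_self w)
  have hdel := ins_del G U L Δ r {w} h w hwU
  set Q : C → ℝ := QQ G (U.erase w) L p (nb G U w) with hQdef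
  have hQpos : ∀ z, 0 < Q z := fun z => QQ_pos G Δ r hr (U.erase w) (nb G U w) L p hdel z
  set Z : ℝ := ((LC G (U.erase w) L p).card : ℝ) with hZdef
  have hZpos : 0 < Z := by
    have h1 := hQpos x
    rcases (Nat.cast_nonneg (LC G (U.erase w) L p).card : (0 : ℝ) ≤ _).eq_or_lt with h2 | h2
    · exfalso
      have h3 : Q x = 0 := by
        rw [hQdef]
        unfold QQ
        rw [← h2, div_zero]
      linarith
    · exact h2
  set A : C → Finset (V → C) := fun z => LC G (U.erase w) (rml L (nb G U w) z) p with hAdef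
  have hcardA : ∀ z, ((A z).card : ℝ) = Z * Q z := by
    intro z
    rw [hQdef]
    unfold QQ
    rw [← hZdef, mul_div_cancel₀ _ hZpos.ne']
  have hApos : ∀ z, 0 < ((A z).card : ℝ) := fun z => by
    rw [hcardA]
    exact mul_pos hZpos (hQpos z)
  intro g hg
  -- the means
  set e : C → ℝ := fun z => ev (A z) (fun f => g (Function.update f w z)) with hedef
  have hE : ∀ z, ∑ f ∈ A z, g (Function.update f w z) = Z * Q z * e z := by
    intro z
    rw [← hcardA]
    show _ = ((A z).card : ℝ) * ((∑ f ∈ A z, g (Function.update f w z)) / ((A z).card : ℝ))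
    rw [mul_div_cancel₀ _ (hApos z).ne']
  -- the sum for a modified list
  have hlist : ∀ (c : C) (k : (V → C) → ℝ), ∑ f ∈ LC G U (rml L {w} c) p, k f
      = ∑ z ∈ (L w).erase c, ∑ f ∈ A z, k (Function.update f w z) := by
    intro c k
    rw [sum_decomp G U (rml L {w} c) p w hwU k]
    have h1 : rml L {w} c w = (L w).erase c := by
      unfold rml
      rw [if_pos (Finset.mem_singleton_self w)]
    rw [h1]
    refine Finset.sum_congr rfl (fun z _ => ?_)
    have h2 : LC G (U.erase w) (rml (rml L {w} c) (nb G U w) z) p = A z := by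
      apply lc_congr
      intro u hu
      have huw : u ≠ w := Finset.ne_of_mem_erase hu
      have h3 : rml L {w} c u = L u := by
        unfold rml
        rw [if_neg (by rwa [Finset.mem_singleton])]
      show (if u ∈ nb G U w then (rml L {w} c u).erase z else rml L {w} c u)
        = (if u ∈ nb G U w then (L u).erase z else L u)
      rw [h3]
    rw [h2]
  have hcard : ∀ c : C, ((LC G U (rml L {w} c) p).card : ℝ) = Z * ∑ z ∈ (L w).erase c, Q z := by
    intro c
    have h1 := hlist c (fun _ => (1 : ℝ))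
    simp only [Finset.sum_const, nsmul_eq_mul, mul_one] at h1
    rw [h1, Finset.mul_sum]
    exact Finset.sum_congr rfl (fun z _ => hcardA z)
  have hev : ∀ c : C, ev (LC G U (rml L {w} c) p) g
      = (∑ z ∈ (L w).erase c, Q z * e z) / (∑ z ∈ (L w).erase c, Q z) := by
    intro c
    unfold ev
    rw [hlist c g, hcard c]
    have h1 : ∑ z ∈ (L w).erase c, ∑ f ∈ A z, g (Function.update f w z)
        = Z * ∑ z ∈ (L w).erase c, Q z * e z := by
      rw [Finset.mul_sum]
      refine Finset.sum_congr rfl (fun z _ => ?_)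
      rw [hE z]
      ring
    rw [h1, mul_div_mul_left _ _ hZpos.ne']
  set S : ℝ := ∑ c ∈ L w, Q c with hSdef
  set Qy : ℝ := if y ∈ L w then Q y else 0 with hQydef
  have hSx : ∑ z ∈ (L w).erase x, Q z = S - Q x := by
    rw [hSdef, ← Finset.add_sum_erase _ _ hx]
    ring
  have hSy : ∑ z ∈ (L w).erase y, Q z = S - Qy := by
    by_cases hy : y ∈ L w
    · rw [hSdef, ← Finset.add_sum_erase _ _ hy, hQydef, if_pos hy]
      ring
    · rw [Finset.erase_eq_of_notMem hy, hQydef, if_neg hy, sub_zero]
  have hcardT : 2 ≤ (L w).card := by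
    have h1 := (h.2.2 w (Finset.mem_singleton_self w)).2
    omega
  have hSxpos : 0 < S - Q x := by
    rw [← hSx]
    apply Finset.sum_pos (fun z _ => hQpos z)
    rw [← Finset.card_pos, Finset.card_erase_of_mem hx]
    omega
  have hSypos : 0 < S - Qy := by
    rw [← hSy]
    apply Finset.sum_pos (fun z _ => hQpos z)
    exact ⟨x, Finset.mem_erase.mpr ⟨hxy, hx⟩⟩
  have hQxy : 0 ≤ Q x - Qy := by
    rw [hQydef]
    by_cases hy : y ∈ L w
    · rw [if_pos hy]
      linarith [hQ hy]
    · rw [if_neg hy]
      linarith [hQpos x]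
  have hrho : ∀ z, rho (L w) Q x y z
      = if z = y then Q y / (S - Q x) else Q z * (Q x - Qy) / ((S - Q x) * (S - Qy)) :=
    fun z => rfl
  have hrho0 : ∀ z, 0 ≤ rho (L w) Q x y z := by
    intro z
    rw [hrho]
    split_ifs
    · exact div_nonneg (hQpos y).le hSxpos.le
    · exact div_nonneg (mul_nonneg (hQpos z).le hQxy) (mul_pos hSxpos hSypos).le
  -- the weighted difference
  have hdiff : ∀ k : C → ℝ, (∑ z ∈ (L w).erase x, Q z * k z) / (S - Q x)
      - (∑ z ∈ (L w).erase y, Q z * k z) / (S - Qy)
      = ∑ z ∈ (L w).erase x, rho (L w) Q x y z * k z - Q x / (S - Qy) * k x := by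
    intro k
    have hxy' : x ∈ (L w).erase y := Finset.mem_erase.mpr ⟨hxy, hx⟩
    rw [← Finset.add_sum_erase _ _ hxy']
    have hsw : ((L w).erase y).erase x = ((L w).erase x).erase y := Finset.erase_right_comm
    rw [hsw]
    have hoff : ∑ z ∈ ((L w).erase x).erase y, rho (L w) Q x y z * k z
        = (∑ z ∈ ((L w).erase x).erase y, Q z * k z) * ((Q x - Qy) / ((S - Q x) * (S - Qy))) := by
      rw [Finset.sum_mul]
      refine Finset.sum_congr rfl (fun z hz => ?_)
      rw [hrho, if_neg (Finset.ne_of_mem_erase hz)]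
      ring
    have hne1 : S - Q x ≠ 0 := hSxpos.ne'
    have hne2 : S - Qy ≠ 0 := hSypos.ne'
    by_cases hy : y ∈ L w
    · have hy' : y ∈ (L w).erase x := Finset.mem_erase.mpr ⟨hxy.symm, hy⟩
      rw [← Finset.add_sum_erase _ _ hy', ← Finset.add_sum_erase _ (fun z => rho (L w) Q x y z * k z)
        hy', hoff, hrho, if_pos rfl]
      have hQyy : Qy = Q y := by rw [hQydef, if_pos hy]
      rw [hQyy] at hne2 ⊢
      field_simp
      ring
    · have hy' : y ∉ (L w).erase x := fun h' => hy (Finset.mem_of_mem_erase h')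
      rw [Finset.erase_eq_of_notMem hy'] at hoff ⊢
      rw [hoff]
      field_simp
      ring
  have hrhosum : ∑ z ∈ (L w).erase x, rho (L w) Q x y z = Q x / (S - Qy) := by
    have h1 := hdiff (fun _ => 1)
    simp only [mul_one] at h1
    rw [hSx, hSy, div_self hSxpos.ne', div_self hSypos.ne', sub_self] at h1
    linarith
  -- comparison of the means
  have hez : ∀ z ∈ L w, e z - e x ≤ 1 + X z := by
    intro z hz
    have h1 : e z - ev (A z) (fun f => g (Function.update f w x)) ≤ 1 := by
      show ev (A z) (fun f => g (Function.update f w z))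
        - ev (A z) (fun f => g (Function.update f w x)) ≤ 1
      unfold ev
      rw [← sub_div, ← Finset.sum_sub_distrib, div_le_one (hApos z)]
      calc ∑ f ∈ A z, (g (Function.update f w z) - g (Function.update f w x))
          ≤ ∑ f ∈ A z, (1 : ℝ) := by
            refine Finset.sum_le_sum (fun f _ => hg _ _ w (fun u hu => ?_))
            rw [Function.update_of_ne hu, Function.update_of_ne hu]
        _ = ((A z).card : ℝ) := by rw [Finset.sum_const, nsmul_eq_mul, mul_one]
    have h2 : ev (A z) (fun f => g (Function.update f w x)) - e x ≤ X z := by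
      refine hX z hz (fun f => g (Function.update f w x)) ?_
      intro f f' v hv
      refine hg _ _ v (fun u hu => ?_)
      by_cases huw : u = w
      · rw [huw, Function.update_self, Function.update_self]
      · rw [Function.update_of_ne huw, Function.update_of_ne huw, hv u hu]
    linarith
  rw [hev x, hev y, hSx, hSy, hdiff e, ← hrhosum, Finset.sum_mul, ← Finset.sum_sub_distrib]
  refine Finset.sum_le_sum (fun z hz => ?_)
  rw [← mul_sub]
  exact mul_le_mul_of_nonneg_left (hez z (Finset.mem_of_mem_erase hz)) (hrho0 z)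

end Pool.Agent.KempeWas
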