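import Pool.Agent.Lib.MP_26a019_lc.Was.WTele

set_option autoImplicit false

open Finset Classical

namespace Pool.Agent.KempeWas

open Pool.Agent.Kempe Pool.Agent.KempeMix

variable {V C : Type} [Fintype V] [Fintype C]

private theorem remMean_card_mul_ev (A : Finset (V → C)) (g : (V → C) → ℝ) :
    (A.card : ℝ) * ev A g = ∑ f ∈ A, g f := by
  unfold ev
  rcases A.eq_empty_or_nonempty with h | h
  · rw [h]
    simp
  · have : (A.card : ℝ) ≠ 0 := by
      exact_mod_cast h.card_pos.ne'
    field_simp

private theorem remMean_aux (G : SimpleGraph V) (Δ r n : ℕ) (M : ℝ) (hr : 1 ≤ r) (hM : 0 ≤ M)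
    (hWP : WP G C Δ r n M) (z : C) : ∀ (k : ℕ) (U J : Finset V) (L : V → Finset C) (p : V → C),
    J.card = k → U.card ≤ n + 1 → Ins G U L Δ r J →
    WB (LC G U L p) (LC G U (rml L J z) p) ((1 + ((Δ : ℝ) - 1) * M) * nn G U L p J z) := by
  intro k
  induction k with
  | zero =>
    intro U J L p hJ hU h
    have hJ0 : J = ∅ := Finset.card_eq_zero.1 hJ
    subst hJ0
    have h1 : rml L (∅ : Finset V) z = L := by
      funext v
      simp [rml]
    have h2 : nn G U L p ∅ z = 0 := by
      simp [nn, ev]
    rw [h1, h2, mul_zero]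
    exact wb_refl _ _ le_rfl
  | succ k ih =>
    intro U J L p hJ hU h
    obtain ⟨u, hu⟩ : J.Nonempty := by
      rw [← Finset.card_pos, hJ]
      exact Nat.succ_pos k
    have huU : u ∈ U := h.1 hu
    set J' := J.erase u with hJ'
    have hJ'c : J'.card = k := by
      rw [hJ', Finset.card_erase_of_mem hu, hJ, Nat.add_sub_cancel]
    have huJ' : u ∉ J' := Finset.notMem_erase u J
    have hins : insert u J' = J := Finset.insert_erase hu
    set c : ℝ := 1 + ((Δ : ℝ) - 1) * M with hc
    have hdeg : (nb G U u).card + 1 ≤ Δ := (h.2.2 u hu).1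
    set A := LC G U L p with hA
    set B := LC G U (rml L J z) p with hB
    have hAne : A.Nonempty := ins_nonempty G U L Δ r J hr h p
    set cnt : (V → C) → ℝ := fun f => ((J'.filter (fun v => f v = z)).card : ℝ) with hcnt
    -- the lists
    have hrml : rml (rml L {u} z) J' z = rml L J z := by
      rw [← hins, rml_insert L J' u huJ' z, rml_comm]
    -- second part
    have h2 : WB (A.filter (fun f => ¬ f u = z)) B
        (c * ev (A.filter (fun f => ¬ f u = z)) cnt) := by
      rw [hA, lc_filter_ne G U L p u huU z]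
      have h3 := ins_rml G U L Δ r J {u} h (Finset.singleton_subset_iff.2 hu) z
      rw [Finset.sdiff_singleton_eq_erase] at h3
      have h4 := ih U J' (rml L {u} z) p hJ'c hU h3
      rw [hrml] at h4
      exact h4
    -- first part
    have h1 : (A.filter (fun f => f u = z)).Nonempty → WB (A.filter (fun f => f u = z)) B
        (c * ev (A.filter (fun f => f u = z)) cnt + c) := by
      rintro ⟨f, hf⟩
      have hfA := (Finset.mem_filter.1 hf).1
      have hfu := (Finset.mem_filter.1 hf).2
      have hzL : z ∈ L u := by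
        rw [← hfu]
        exact (Finset.mem_filter.1 hfA).2.1 u huU
      rw [hA, lc_filter_eq G U L p u huU z hzL]
      have h3 := ins_pin G U L Δ r J h u huU z
      have hU' : (U.erase u).card ≤ n + 1 := (Finset.card_erase_le).trans hU
      have h4 := ih (U.erase u) J' (rml L (nb G U u) z) (Function.update p u z) hJ'c hU' h3
      refine wb_trans _ _ _ _ _ h4 ?_
      -- from `A1'` to `B`
      have hBne : B.Nonempty := by
        have h5 := ins_rml G U L Δ r J J h (Finset.Subset.refl J) z
        exact ins_nonempty G U _ Δ r _ hr h5 p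
      apply wb_mix_right _ _ u _ hBne
      rintro e ⟨g, hg⟩
      have hgB := (Finset.mem_filter.1 hg).1
      have hgu := (Finset.mem_filter.1 hg).2
      have heL : e ∈ rml L J z u := by
        rw [← hgu]
        exact (Finset.mem_filter.1 hgB).2.1 u huU
      rw [hB, lc_filter_eq G U (rml L J z) p u huU e heL]
      have h6 : LC G (U.erase u) (rml (rml L J z) (nb G U u) e) (Function.update p u e)
          = LC G (U.erase u) (rml (rml L J' z) (nb G U u) e) (Function.update p u e) := by
        apply lc_congr
        intro w hw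
        have hwu : w ≠ u := (Finset.mem_erase.1 hw).1
        have h7 : rml L J z w = rml L J' z w := by
          unfold rml
          have h8 : w ∈ J ↔ w ∈ J' := by
            rw [hJ', Finset.mem_erase]
            exact ⟨fun h => ⟨hwu, h⟩, fun h => h.2⟩
          simp only [h8]
        unfold rml at h7 ⊢
        simp only [h7]
      rw [h6, rml_comm L (nb G U u) J' z z]
      have h9 := ins_rml G U L Δ r J J' h (Finset.erase_subset u J) z
      have h10 := pin G Δ r n M hM hWP U (J \ J') (rml L J' z) p u huU hU h9 z e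
      refine wb_mono _ _ _ _ h10 ?_
      rw [hc]
      have h11 : ((nb G U u).card : ℝ) ≤ (Δ : ℝ) - 1 := by
        have : ((nb G U u).card : ℝ) + 1 ≤ (Δ : ℝ) := by exact_mod_cast hdeg
        linarith
      have := mul_le_mul_of_nonneg_right h11 hM
      linarith
    have h3 := wb_split A B (fun f => f u = z) _ _ hAne h1 (fun _ => h2)
    refine wb_mono _ _ _ _ h3 (le_of_eq ?_)
    have hAc : (A.card : ℝ) ≠ 0 := by exact_mod_cast hAne.card_pos.ne'
    have h4 : nn G U L p J z = (∑ f ∈ A, ((J.filter (fun v => f v = z)).card : ℝ)) / (A.card : ℝ) :=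
      rfl
    have h5 : ∀ f : V → C, ((J.filter (fun v => f v = z)).card : ℝ)
        = cnt f + (if f u = z then 1 else 0) := by
      intro f
      have h6 : (J.filter (fun v => f v = z)).card
          = (J'.filter (fun v => f v = z)).card + (if f u = z then 1 else 0) := by
        rw [← hins, Finset.filter_insert]
        by_cases hfu : f u = z
        · rw [if_pos hfu, if_pos hfu, Finset.card_insert_of_notMem]
          intro h7
          exact huJ' (Finset.mem_filter.1 h7).1
        · rw [if_neg hfu, if_neg hfu, add_zero]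
      rw [hcnt, h6]
      push_cast
      rfl
    have h6 : ∑ f ∈ A, ((J.filter (fun v => f v = z)).card : ℝ)
        = ∑ f ∈ A, cnt f + ((A.filter (fun f => f u = z)).card : ℝ) := by
      rw [Finset.sum_congr rfl (fun f _ => h5 f), Finset.sum_add_distrib, Finset.sum_boole]
    have h7 := Finset.sum_filter_add_sum_filter_not A (fun f => f u = z) cnt
    rw [h4, h6, ← h7, ← remMean_card_mul_ev, ← remMean_card_mul_ev]
    field_simp
    ring

/-- REMOVAL COST = MEAN. Induction on `J` (or its cardinality), all `U`, `L`, `p`. Take `u ∈ J`,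
`A = LC G U L p`, `A1 = A.filter (f u = z)`, `A2 = A.filter (f u ≠ z)`,
`B = LC G U (rml L J z) p` = those `f ∈ A` avoiding `z` on `J`. `wb_split` with
* `A2`: by the induction hypothesis for the lists `rml L {u} z` and `J.erase u`
  (`ins_rml`), `B` is the same set: cost `c * E_{A2} #z(J.erase u)`;
* `A1` (if nonempty, so `z ∈ L u`): `A1 = LC G (U.erase u) (rml L (nb G U u) z) (update p u z)`
  (`lc_filter_eq`); induction hypothesis with `J.erase u` (`ins_pin`):
  `A1 → A1' = A1` avoiding `z` on `J.erase u`, cost `c * E_{A1} #z(J.erase u)`. Then `A1' → B` by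
  `wb_mix_right` (colour `e ≠ z` of `u`) and `pin` for the instance with lists
  `rml L (J.erase u) z` (which is `Ins ... {u}`): cost `1 + deg * M ≤ c` as
  `(nb G U u).card ≤ Δ - 1`.
Sum: `(|A1| (c E_{A1} # + c) + |A2| c E_{A2} #) / |A| = c E_A #z(J)`.
Here `c = 1 + (Δ - 1) M`. -/
theorem rem_mean (G : SimpleGraph V) (Δ r n : ℕ) (M : ℝ) (hr : 1 ≤ r) (hM : 0 ≤ M)
    (hWP : WP G C Δ r n M) (U J : Finset V) (L : V → Finset C) (p : V → C) (hU : U.card ≤ n + 1)
    (h : Ins G U L Δ r J) (z : C) :
    WB (LC G U L p) (LC G U (rml L J z) p) ((1 + ((Δ : ℝ) - 1) * M) * nn G U L p J z) :=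
  remMean_aux G Δ r n M hr hM hWP z J.card U J L p rfl hU h

end Pool.Agent.KempeWas
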