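import Pool.Agent.Lib.MP_26a019_lc.Was.WTele

set_option autoImplicit false

open Finset Classical

namespace Pool.Agent.KempeWas

open Pool.Agent.Kempe Pool.Agent.KempeMix

variable {V C : Type} [Fintype V] [Fintype C]

theorem mem_of_filter_nonempty {G : SimpleGraph V} {U : Finset V} {L : V → Finset C} {p : V → C}
    {u : V} (hu : u ∈ U) {c : C} (h : ((LC G U L p).filter (fun f => f u = c)).Nonempty) :
    c ∈ L u := by
  obtain ⟨f, hf⟩ := h
  obtain ⟨hf1, hf2⟩ := Finset.mem_filter.1 hf
  unfold LC at hf1
  have h1 := (Finset.mem_filter.1 hf1).2.1 u hu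
  rwa [hf2] at h1

/-- REMOVAL COST, product form. Induction on `J`: remove `z` at one vertex `u ∈ J` after the
other; `β u = |A.filter (f u = z)| / |A| ≤ 1 / (r + 1)` (`prob_le`) in the current set `A`;
`wb_split` for the one-vertex step: `A2 → A2` costs 0, `A1 → A2` costs at most
`1 + deg * M ≤ c` (`wb_mix_right`, `pin`); so `A → A2` costs `β u * c`; `QQ` is multiplied by
`1 - β u`. -/
theorem rem_prod (G : SimpleGraph V) (Δ r n : ℕ) (M : ℝ) (hr : 1 ≤ r) (hM : 0 ≤ M)
    (hWP : WP G C Δ r n M) (U J : Finset V) (L : V → Finset C) (p : V → C) (hU : U.card ≤ n + 1)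
    (h : Ins G U L Δ r J) (z : C) :
    ∃ β : V → ℝ, (∀ v, 0 ≤ β v ∧ β v ≤ 1 / ((r : ℝ) + 1)) ∧
      QQ G U L p J z = ∏ v ∈ J, (1 - β v) ∧
      WB (LC G U L p) (LC G U (rml L J z) p) ((1 + ((Δ : ℝ) - 1) * M) * ∑ v ∈ J, β v) := by
  revert L
  induction J using Finset.induction_on with
  | empty =>
    intro L h
    have h1 : rml L ∅ z = L := by
      funext v
      simp [rml]
    refine ⟨fun _ => 0, fun v => ⟨le_rfl, by positivity⟩, ?_, ?_⟩
    · unfold QQ
      rw [h1, Finset.prod_empty, div_self]
      have h2 := (ins_nonempty G U L Δ r ∅ hr h p).card_pos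
      exact_mod_cast h2.ne'
    · rw [h1, Finset.sum_empty, mul_zero]
      exact wb_refl _ 0 le_rfl
  | insert u J' hu ih =>
    intro L h
    have huU : u ∈ U := h.1 (Finset.mem_insert_self u J')
    have hSl : Sl G U L Δ r 1 u := h.2.2 u (Finset.mem_insert_self u J')
    have hvJ : ({u} : Finset V) ⊆ insert u J' := by simp
    have h1 := ins_rml G U L Δ r (insert u J') {u} h hvJ z
    have h2 : insert u J' \ {u} = J' := by
      rw [Finset.insert_sdiff_of_mem _ (Finset.mem_singleton_self u),
        Finset.sdiff_singleton_eq_erase, Finset.erase_eq_of_notMem hu]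
    rw [h2] at h1
    obtain ⟨β', hβ', hQ', hW'⟩ := ih (rml L {u} z) h1
    have e1 : rml (rml L {u} z) J' z = rml L (insert u J') z := by
      rw [rml_insert L J' u hu z, rml_comm]
    rw [e1] at hW'
    set A := LC G U L p with hA
    set A1 := LC G U (rml L {u} z) p with hA1
    have hAne : A.Nonempty := ins_nonempty G U L Δ r _ hr h p
    have hA1ne : A1.Nonempty := ins_nonempty G U _ Δ r _ hr h1 p
    have hfne : A.filter (fun f => ¬ f u = z) = A1 := lc_filter_ne G U L p u huU z
    have hApos : (0 : ℝ) < (A.card : ℝ) := by exact_mod_cast hAne.card_pos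
    have hA1pos : (0 : ℝ) < (A1.card : ℝ) := by exact_mod_cast hA1ne.card_pos
    have hcard : ((A.filter (fun f => f u = z)).card : ℝ) + (A1.card : ℝ) = (A.card : ℝ) := by
      rw [← hfne]
      exact_mod_cast Finset.card_filter_add_card_filter_not (s := A) (fun f => f u = z)
    set b : ℝ := ((A.filter (fun f => f u = z)).card : ℝ) / (A.card : ℝ) with hb
    have hb0 : 0 ≤ b := div_nonneg (Nat.cast_nonneg _) hApos.le
    have hr1 : (0 : ℝ) < (r : ℝ) + 1 := by positivity
    have hb1 : b ≤ 1 / ((r : ℝ) + 1) := by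
      rw [hb, div_le_div_iff₀ hApos hr1, one_mul]
      exact prob_le G U L p Δ r u huU hSl z
    have h1b : 1 - b = (A1.card : ℝ) / (A.card : ℝ) := by
      rw [hb, eq_div_iff hApos.ne', sub_mul, one_mul, div_mul_cancel₀ _ hApos.ne']
      linarith
    have hne : ∀ v ∈ J', v ≠ u := fun v hv h => hu (h ▸ hv)
    refine ⟨Function.update β' u b, fun v => ?_, ?_, ?_⟩
    · by_cases hv : v = u
      · subst hv
        rw [Function.update_self]
        exact ⟨hb0, hb1⟩
      · rw [Function.update_of_ne hv]
        exact hβ' v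
    · rw [Finset.prod_insert hu, Function.update_self]
      have h3 : ∏ v ∈ J', (1 - Function.update β' u b v) = ∏ v ∈ J', (1 - β' v) :=
        Finset.prod_congr rfl fun v hv => by rw [Function.update_of_ne (hne v hv)]
      rw [h3, ← hQ', h1b]
      unfold QQ
      rw [e1, ← hA, ← hA1, div_mul_div_cancel₀' hA1pos.ne']
    · rw [Finset.sum_insert hu, Function.update_self]
      have h3 : ∑ v ∈ J', Function.update β' u b v = ∑ v ∈ J', β' v :=
        Finset.sum_congr rfl fun v hv => by rw [Function.update_of_ne (hne v hv)]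
      rw [h3]
      -- the step at `u`
      have hstep : WB A A1 (b * (1 + ((Δ : ℝ) - 1) * M)) := by
        have hsp := wb_split A A1 (fun f => f u = z) (1 + ((Δ : ℝ) - 1) * M) 0 hAne
          (fun hne1 => ?_) (fun _ => by rw [hfne]; exact wb_refl _ 0 le_rfl)
        · refine wb_mono _ _ _ _ hsp (le_of_eq ?_)
          rw [hb]
          field_simp
          ring
        · refine wb_mix_right _ _ u _ hA1ne fun c hc => ?_
          have hzL : z ∈ L u := mem_of_filter_nonempty huU hne1
          have hcL' : c ∈ rml L {u} z u := mem_of_filter_nonempty huU hc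
          have hcz : c ≠ z ∧ c ∈ L u := by
            unfold rml at hcL'
            rw [if_pos (Finset.mem_singleton_self u)] at hcL'
            exact Finset.mem_erase.1 hcL'
          have e2 : A1.filter (fun f => f u = c) = A.filter (fun f => f u = c) := by
            rw [← hfne]
            ext f
            simp only [Finset.mem_filter]
            constructor
            · rintro ⟨⟨h4, -⟩, h5⟩
              exact ⟨h4, h5⟩
            · rintro ⟨h4, h5⟩
              refine ⟨⟨h4, ?_⟩, h5⟩
              rw [h5]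
              exact hcz.1
          rw [e2, hA, lc_filter_eq G U L p u huU z hzL, lc_filter_eq G U L p u huU c hcz.2]
          refine wb_mono _ _ _ _ (pin G Δ r n M hM hWP U _ L p u huU hU h z c) ?_
          have h4 : ((nb G U u).card : ℝ) + 1 ≤ (Δ : ℝ) := by exact_mod_cast hSl.1
          nlinarith
      refine wb_mono _ _ _ _ (wb_trans _ _ _ _ _ hstep hW') (le_of_eq ?_)
      ring

end Pool.Agent.KempeWas
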