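import Pool.Agent.Lib.MP_26a019_lc.Was.WRec
import Pool.Agent.Lib.MP_26a019_lc.Was.WRemMean
import Pool.Agent.Lib.MP_26a019_lc.Was.WRemProd

set_option autoImplicit false

open Finset Classical

namespace Pool.Agent.KempeWas

open Pool.Agent.Kempe Pool.Agent.KempeMix

variable {V C : Type} [Fintype V] [Fintype C]

/-- `∑ ρ = Q x / (S - Q y) ≤ 1 / r`, and `ρ ≥ 0`. -/
theorem rho_sum (r k : ℕ) (hr : 1 ≤ r) {C : Type} (T : Finset C) (Q : C → ℝ) (x y : C)
    (hx : x ∈ T) (hxy : x ≠ y) (h0 : ∀ z ∈ T, 0 < Q z) (h1 : ∀ z ∈ T, Q z ≤ 1)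
    (hS : ∑ z ∈ T, (1 - Q z) ≤ k) (hT : r + k + 1 ≤ T.card) (hy : y ∈ T → Q y ≤ Q x) :
    (∀ z ∈ T.erase x, 0 ≤ rho T Q x y z) ∧ ∑ z ∈ T.erase x, rho T Q x y z ≤ 1 / (r : ℝ) := by
  have hr' : (1 : ℝ) ≤ r := by exact_mod_cast hr
  have hTr : ((r : ℝ) + k + 1) ≤ T.card := by exact_mod_cast hT
  set S := ∑ c ∈ T, Q c with hSdef
  have hSS : (r : ℝ) + 1 ≤ S := by
    rw [Finset.sum_sub_distrib] at hS
    simp only [Finset.sum_const, nsmul_eq_mul, mul_one] at hS
    linarith
  have hQx0 := h0 x hx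
  have hQx1 := h1 x hx
  have hA : (r : ℝ) ≤ S - Q x := by linarith
  have hApos : 0 < S - Q x := by linarith
  have hexx : ∑ z ∈ T.erase x, Q z = S - Q x := by
    rw [hSdef, ← Finset.add_sum_erase T Q hx]; ring
  by_cases hyT : y ∈ T
  · have hQy0 := h0 y hyT
    have hQy1 := h1 y hyT
    have hyx := hy hyT
    have hB : (r : ℝ) ≤ S - Q y := by linarith
    have hBpos : 0 < S - Q y := by linarith
    have hrho : ∀ z, rho T Q x y z = if z = y then Q y / (S - Q x) else
        Q z * (Q x - Q y) / ((S - Q x) * (S - Q y)) := by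
      intro z; unfold rho; simp only [if_pos hyT]; rfl
    constructor
    · intro z hz
      rw [hrho]
      split_ifs
      · exact div_nonneg hQy0.le hApos.le
      · exact div_nonneg (mul_nonneg (h0 z (Finset.mem_of_mem_erase hz)).le (by linarith))
          (mul_pos hApos hBpos).le
    · have hyE : y ∈ T.erase x := Finset.mem_erase.2 ⟨hxy.symm, hyT⟩
      rw [← Finset.add_sum_erase _ _ hyE]
      have e1 : rho T Q x y y = Q y / (S - Q x) := by rw [hrho]; simp
      have e2 : ∑ z ∈ (T.erase x).erase y, rho T Q x y z =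
          (S - Q x - Q y) * ((Q x - Q y) / ((S - Q x) * (S - Q y))) := by
        have : ∀ z ∈ (T.erase x).erase y, rho T Q x y z =
            Q z * ((Q x - Q y) / ((S - Q x) * (S - Q y))) := by
          intro z hz
          rw [hrho, if_neg (Finset.ne_of_mem_erase hz)]
          ring
        rw [Finset.sum_congr rfl this, ← Finset.sum_mul]
        congr 1
        have := Finset.add_sum_erase (T.erase x) Q hyE
        rw [hexx] at this
        linarith
      rw [e1, e2]
      have e3 : Q y / (S - Q x) + (S - Q x - Q y) * ((Q x - Q y) / ((S - Q x) * (S - Q y))) =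
          Q x / (S - Q y) := by
        field_simp
        ring
      rw [e3]
      rw [div_le_div_iff₀ hBpos (by linarith)]
      nlinarith
  · have hrho : ∀ z, rho T Q x y z = if z = y then Q y / (S - Q x) else
        Q z * (Q x - 0) / ((S - Q x) * (S - 0)) := by
      intro z; unfold rho; simp only [if_neg hyT]; rfl
    have hSpos : 0 < S := by linarith
    have hne : ∀ z ∈ T.erase x, z ≠ y := by
      intro z hz h
      exact hyT (h ▸ Finset.mem_of_mem_erase hz)
    constructor
    · intro z hz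
      rw [hrho, if_neg (hne z hz)]
      exact div_nonneg (mul_nonneg (h0 z (Finset.mem_of_mem_erase hz)).le (by linarith))
        (mul_pos hApos (by linarith)).le
    · have : ∀ z ∈ T.erase x, rho T Q x y z = Q z * (Q x / ((S - Q x) * S)) := by
        intro z hz
        rw [hrho, if_neg (hne z hz)]
        simp only [sub_zero]
        ring
      rw [Finset.sum_congr rfl this, ← Finset.sum_mul, hexx]
      have e3 : (S - Q x) * (Q x / ((S - Q x) * S)) = Q x / S := by
        field_simp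
      rw [e3, div_le_div_iff₀ hSpos (by linarith)]
      nlinarith

/-- The case `x ∈ L w`, `Q y ≤ Q x`. -/
theorem wp_step_aux (G : SimpleGraph V) (Δ r n : ℕ) (hr : 1 ≤ r) (κ M : ℝ) (hκ : Kap Δ r κ)
    (hM : 0 ≤ M) (hM' : (2 * (Δ : ℝ) + 1) / r + κ * M ≤ M) (hWP : WP G C Δ r n M)
    (U : Finset V) (L : V → Finset C) (p : V → C) (w : V) (x y : C) (hU : U.card ≤ n + 1)
    (h : Ins G U L Δ r {w}) (hx : x ∈ L w) (hxy : x ≠ y)
    (hQ : y ∈ L w → QQ G (U.erase w) L p (nb G U w) y ≤ QQ G (U.erase w) L p (nb G U w) x) :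
    WB (LC G U (rml L {w} x) p) (LC G U (rml L {w} y) p) M := by
  have hr' : (1 : ℝ) ≤ r := by exact_mod_cast hr
  have hw : w ∈ U := h.1 (Finset.mem_singleton_self w)
  obtain ⟨hsl1, hsl2⟩ := h.2.2 w (Finset.mem_singleton_self w)
  set N := nb G U w with hN
  set H := U.erase w with hH
  have hHc : H.card ≤ n := by
    rw [hH, Finset.card_erase_of_mem hw]; omega
  have hHI : Ins G H L Δ r N := ins_del G U L Δ r {w} h w hw
  set k := N.card with hk
  have hΔ : (1 : ℝ) ≤ Δ := by
    have : 1 ≤ Δ := by omega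
    exact_mod_cast this
  set c := 1 + ((Δ : ℝ) - 1) * M with hc
  have hc0 : 0 ≤ c := by
    have := mul_nonneg (sub_nonneg.2 hΔ) hM
    rw [hc]; linarith
  choose β hβ1 hβ2 hβ3 using fun z => rem_prod G Δ r n M hr hM hWP H N L p (by omega) hHI z
  set Q : C → ℝ := QQ G H L p N with hQdef
  set nu : C → ℝ := nn G H L p N with hnu
  set R : C → ℝ := fun z => min (nu z) (∑ v ∈ N, β z v) with hR
  have hnu0 : ∀ z, 0 ≤ nu z := by
    intro z
    rw [hnu]
    unfold nn ev
    exact div_nonneg (Finset.sum_nonneg fun f _ => Nat.cast_nonneg _) (Nat.cast_nonneg _)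
  have hR0 : ∀ z, 0 ≤ R z := fun z =>
    le_min (hnu0 z) (Finset.sum_nonneg fun v _ => (hβ1 z v).1)
  have hRk : ∀ z, R z ≤ Δ := by
    intro z
    have h1 : ∑ v ∈ N, β z v ≤ ∑ v ∈ N, (1 : ℝ) := by
      apply Finset.sum_le_sum
      intro v _
      refine (hβ1 z v).2.trans ?_
      rw [div_le_one (by linarith)]; linarith
    have h2 : ∑ v ∈ N, (1 : ℝ) = k := by simp [hk]
    have h3 : (k : ℝ) ≤ Δ := by
      have : k ≤ Δ := by omega
      exact_mod_cast this
    exact (min_le_right _ _).trans (by linarith)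
  have hRem : ∀ z, WB (LC G H L p) (LC G H (rml L N z) p) (c * R z) := by
    intro z
    rcases le_total (nu z) (∑ v ∈ N, β z v) with hle | hle
    · have : R z = nu z := min_eq_left hle
      rw [this]
      exact rem_mean G Δ r n M hr hM hWP H N L p (by omega) hHI z
    · have : R z = ∑ v ∈ N, β z v := min_eq_right hle
      rw [this]
      exact hβ3 z
  set X : C → ℝ := fun z => min ((k : ℝ) * M) (c * (R z + R x)) with hX
  have hWBX : ∀ z ∈ L w, WB (LC G H (rml L N z) p) (LC G H (rml L N x) p) (X z) := by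
    intro z _
    rcases le_total ((k : ℝ) * M) (c * (R z + R x)) with hle | hle
    · have : X z = (k : ℝ) * M := min_eq_left hle
      rw [this]
      exact tele G Δ r n M hM hWP H N L p hHc hHI z x
    · have : X z = c * R z + c * R x := by
        have : X z = c * (R z + R x) := min_eq_right hle
        rw [this]; ring
      rw [this]
      exact wb_trans _ _ _ _ _ (wb_symm _ _ _ (hRem z)) (hRem x)
  have hrec := rec_step G Δ r hr U L p w h x y hx hxy hQ X hWBX
  refine wb_mono _ _ _ _ hrec ?_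
  -- the estimate
  have hQ0 : ∀ z ∈ L w, 0 < Q z := fun z _ => QQ_pos G Δ r hr H N L p hHI z
  have hQ1 : ∀ z ∈ L w, Q z ≤ 1 := fun z _ => QQ_le_one G H N hHI.1 L p z
  have hQn : ∀ z, 1 - Q z ≤ nu z := fun z =>
    one_sub_QQ_le G H N hHI.1 L p (ins_nonempty G H L Δ r N hr hHI p) z
  have hsn : ∑ z ∈ L w, nu z ≤ k := sum_nn_le G H N L p (L w)
  have hsQ : ∑ z ∈ L w, (1 - Q z) ≤ k :=
    (Finset.sum_le_sum fun z _ => hQn z).trans hsn
  have hcard : r + k + 1 ≤ (L w).card := hsl2
  obtain ⟨hρ0, hρ1⟩ := rho_sum r k hr (L w) Q x y hx hxy hQ0 hQ1 hsQ hcard hQ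
  have hCost : ∀ z ∈ L w, Cost k r (Q z) (nu z) (R z) := by
    intro z hz
    refine ⟨hQ0 z hz, hQ1 z hz, hQn z, hR0 z, min_le_left _ _, ?_⟩
    refine ⟨fun i => β z ((N.equivFin.symm i : N) : V), fun i => hβ1 z _, ?_, ?_⟩
    · have h2 : Q z = ∏ v ∈ N, (1 - β z v) := hβ2 z
      rw [h2]
      rw [← Finset.prod_coe_sort N (fun v => 1 - β z v)]
      exact (Equiv.prod_comp N.equivFin.symm (fun v : N => 1 - β z (v : V))).symm
    · refine (min_le_right _ _).trans (le_of_eq ?_)
      rw [← Finset.sum_coe_sort N (fun v => β z v)]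
      exact (Equiv.sum_comp N.equivFin.symm (fun v : N => β z (v : V))).symm
  have hkap := hκ C (L w) x y k Q nu R hx hxy hsl1 hcard hCost hsn hQ
  have hterm : ∀ z ∈ (L w).erase x, rho (L w) Q x y z * (1 + X z) ≤
      rho (L w) Q x y z * (2 * (Δ : ℝ) + 1) +
        (rho (L w) Q x y z * min (k : ℝ) (((Δ : ℝ) - 1) * (R z + R x))) * M := by
    intro z hz
    have h0 := hρ0 z hz
    have hX2 : X z ≤ (R z + R x) + M * min (k : ℝ) (((Δ : ℝ) - 1) * (R z + R x)) := by
      rcases le_total (k : ℝ) (((Δ : ℝ) - 1) * (R z + R x)) with hle | hle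
      · rw [min_eq_left hle]
        refine (min_le_left _ _).trans ?_
        have := hR0 z
        have := hR0 x
        linarith
      · rw [min_eq_right hle]
        refine (min_le_right _ _).trans (le_of_eq ?_)
        rw [hc]; ring
    have h3 : 1 + X z ≤ (2 * (Δ : ℝ) + 1) + M * min (k : ℝ) (((Δ : ℝ) - 1) * (R z + R x)) := by
      have := hRk z
      have := hRk x
      linarith
    calc rho (L w) Q x y z * (1 + X z)
        ≤ rho (L w) Q x y z *
          ((2 * (Δ : ℝ) + 1) + M * min (k : ℝ) (((Δ : ℝ) - 1) * (R z + R x))) :=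
          mul_le_mul_of_nonneg_left h3 h0
      _ = _ := by ring
  have hsum := Finset.sum_le_sum hterm
  rw [Finset.sum_add_distrib, ← Finset.sum_mul, ← Finset.sum_mul] at hsum
  refine hsum.trans ?_
  have h4 : (∑ z ∈ (L w).erase x, rho (L w) Q x y z) * (2 * (Δ : ℝ) + 1) ≤
      (2 * (Δ : ℝ) + 1) / r := by
    have h5 : (0 : ℝ) ≤ 2 * (Δ : ℝ) + 1 := by linarith
    calc _ ≤ 1 / (r : ℝ) * (2 * (Δ : ℝ) + 1) := mul_le_mul_of_nonneg_right hρ1 h5
      _ = _ := by ring
  have h6 := mul_le_mul_of_nonneg_right hkap hM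
  linarith

/-- One step of the induction: `X z = min (k M) (c (R z + R x))`,
`R z = min (nn ...) (∑ β)`, `c = 1 + (Δ-1) M`, so
`1 + X z ≤ (1 + R z + R x) + M min (k, (Δ-1)(R z + R x))` and `R ≤ k / (r+1) ≤ k ≤ Δ`. If
`Q x < Q y` exchange `x` and `y` (`wb_symm`); if neither `x` nor `y` is in `L w` both sets are
equal. -/
theorem wp_step (G : SimpleGraph V) (Δ r n : ℕ) (hr : 1 ≤ r) (κ M : ℝ) (hκ : Kap Δ r κ)
    (hM : 0 ≤ M) (hM' : (2 * (Δ : ℝ) + 1) / r + κ * M ≤ M) (hWP : WP G C Δ r n M) :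
    WP G C Δ r (n + 1) M := by
  intro U L p w x y hU h
  by_cases hxy : x = y
  · subst hxy
    exact wb_refl _ _ hM
  by_cases hx : x ∈ L w
  · by_cases hQ : y ∈ L w → QQ G (U.erase w) L p (nb G U w) y ≤ QQ G (U.erase w) L p (nb G U w) x
    · exact wp_step_aux G Δ r n hr κ M hκ hM hM' hWP U L p w x y hU h hx hxy hQ
    · have hQ2 : y ∈ L w ∧
          QQ G (U.erase w) L p (nb G U w) x < QQ G (U.erase w) L p (nb G U w) y := by
        by_contra hcon
        apply hQ
        intro hy
        by_contra hlt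
        exact hcon ⟨hy, lt_of_not_ge hlt⟩
      exact wb_symm _ _ _ (wp_step_aux G Δ r n hr κ M hκ hM hM' hWP U L p w y x hU h hQ2.1
        (Ne.symm hxy) (fun _ => hQ2.2.le))
  · by_cases hy : y ∈ L w
    · exact wb_symm _ _ _ (wp_step_aux G Δ r n hr κ M hκ hM hM' hWP U L p w y x hU h hy
        (Ne.symm hxy) (fun hx' => absurd hx' hx))
    · have hcongr : LC G U (rml L {w} x) p = LC G U (rml L {w} y) p := by
        apply lc_congr
        intro u _
        unfold rml
        by_cases hu : u ∈ ({w} : Finset V)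
        · have : u = w := Finset.mem_singleton.1 hu
          subst this
          rw [if_pos hu, if_pos hu, Finset.erase_eq_of_notMem hx, Finset.erase_eq_of_notMem hy]
        · rw [if_neg hu, if_neg hu]
      rw [hcongr]
      exact wb_refl _ _ hM

theorem wp_all (G : SimpleGraph V) (Δ r : ℕ) (hr : 1 ≤ r) (κ M : ℝ) (hκ : Kap Δ r κ)
    (hM : 0 ≤ M) (hM' : (2 * (Δ : ℝ) + 1) / r + κ * M ≤ M) (n : ℕ) : WP G C Δ r n M := by
  induction n with
  | zero =>
    intro U L p w x y hU h
    have hw : w ∈ U := h.1 (Finset.mem_singleton_self w)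
    have : U = ∅ := Finset.card_eq_zero.1 (by omega)
    rw [this] at hw
    exact absurd hw (Finset.notMem_empty w)
  | succ n ih => exact wp_step G Δ r n hr κ M hκ hM hM' ih

end Pool.Agent.KempeWas
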