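import Pool.Agent.Lib.MP_26a019_lc.Was.WIns

set_option autoImplicit false

open Finset Classical

namespace Pool.Agent.KempeWas

open Pool.Agent.Kempe Pool.Agent.KempeMix

variable {V C : Type} [Fintype V] [Fintype C]

/-- Telescoping. Induction on `J`: one vertex at a time goes from avoiding `z` to avoiding `x`. -/
theorem tele (G : SimpleGraph V) (Δ r n : ℕ) (M : ℝ) (hM : 0 ≤ M) (hWP : WP G C Δ r n M)
    (U J : Finset V) (L : V → Finset C) (p : V → C) (hU : U.card ≤ n) (h : Ins G U L Δ r J)
    (z x : C) : WB (LC G U (rml L J z) p) (LC G U (rml L J x) p) ((J.card : ℝ) * M) := by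
  revert L
  induction J using Finset.induction_on with
  | empty =>
    intro L _
    have h1 : rml L ∅ z = rml L ∅ x := by
      funext v
      simp [rml]
    rw [h1, Finset.card_empty, Nat.cast_zero, zero_mul]
    exact wb_refl _ 0 le_rfl
  | insert v J' hv ih =>
    intro L h
    have hvJ : ({v} : Finset V) ⊆ insert v J' := by simp
    have h1 := ins_rml G U L Δ r (insert v J') {v} h hvJ z
    have h2 : insert v J' \ {v} = J' := by
      rw [Finset.insert_sdiff_of_mem _ (Finset.mem_singleton_self v),
        Finset.sdiff_singleton_eq_erase, Finset.erase_eq_of_notMem hv]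
    rw [h2] at h1
    have h3 := ih (rml L {v} z) h1
    have h4 := ins_rml G U L Δ r (insert v J') J' h (Finset.subset_insert _ _) x
    have h5 : insert v J' \ J' = {v} := by
      ext u
      simp only [Finset.mem_sdiff, Finset.mem_insert, Finset.mem_singleton]
      constructor
      · rintro ⟨h6 | h6, h7⟩
        · exact h6
        · exact absurd h6 h7
      · rintro rfl
        exact ⟨Or.inl rfl, hv⟩
    rw [h5] at h4
    have h6 := hWP U (rml L J' x) p v z x hU h4
    have e1 : rml (rml L {v} z) J' z = rml L (insert v J') z := by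
      rw [rml_insert L J' v hv z, rml_comm]
    have e2 : rml (rml L {v} z) J' x = rml (rml L J' x) {v} z := rml_comm L {v} J' z x
    have e3 : rml (rml L J' x) {v} x = rml L (insert v J') x := (rml_insert L J' v hv x).symm
    rw [e1, e2] at h3
    rw [e3] at h6
    refine wb_mono _ _ _ _ (wb_trans _ _ _ _ _ h3 h6) (le_of_eq ?_)
    rw [Finset.card_insert_of_notMem hv]
    push_cast
    ring

/-- Comparing two pinnings of `u`: `ins_del`, `tele` on `U.erase u` with `J = nb G U u`, and
`wb_shift`. -/
theorem pin (G : SimpleGraph V) (Δ r n : ℕ) (M : ℝ) (hM : 0 ≤ M) (hWP : WP G C Δ r n M)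
    (U J : Finset V) (L : V → Finset C) (p : V → C) (u : V) (hu : u ∈ U) (hU : U.card ≤ n + 1)
    (h : Ins G U L Δ r J) (z c : C) :
    WB (LC G (U.erase u) (rml L (nb G U u) z) (Function.update p u z))
      (LC G (U.erase u) (rml L (nb G U u) c) (Function.update p u c))
      (1 + ((nb G U u).card : ℝ) * M) := by
  have h1 := ins_del G U L Δ r J h u hu
  have h2 : (U.erase u).card ≤ n := by
    rw [Finset.card_erase_of_mem hu]
    omega
  have h3 := tele G Δ r n M hM hWP (U.erase u) (nb G U u) L (Function.update p u z) h2 h1 z c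
  have h4 := wb_shift G (U.erase u) (rml L (nb G U u) c) p u (Finset.notMem_erase u U) z c
  refine wb_mono _ _ _ _ (wb_trans _ _ _ _ _ h3 h4) (le_of_eq ?_)
  ring

end Pool.Agent.KempeWas
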